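import Pool.Agent.Lib.MP_fb520c_co.Asm.CapA

/-! The area fact with the caps between the curve and the polygon. -/

set_option autoImplicit false

open Complex ComplexConjugate

namespace Pool.Agent.Lib.MP_fb520c_co.Asm

open Dent

/-- the cap form of a pair from rounded coefficients -/
def capT (S0 S1 S3 K : ℤ) : Terms :=
  [([S0], [1]), ([0, 1], [0, -(S3 + S1), 0, 2 * S3, -K]),
    ([0, 0, 1], [0, 0, -(3 * (S3 + S1)), K, 6 * S3]),
    ([0, 0, 0, 1], [0, 0, 0, -S3]), ([0, 0, 0, 0, 1], [0, 0, 0, 0, -(3 * S3)])]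

/-- the cap form for the determinant `n / d` -/
def capS (n d : ℤ) : Terms :=
  capT (3438 * 2 ^ 81 * (n * n * n) / (10000 * (d * d * d)) - 1)
    (18414 * 2 ^ 81 * (n * n * n) / (10000 * (d * d * d)) + 1)
    (6138 * 2 ^ 81 * n / (10000 * d) + 1) (27513 * 2 ^ 81 * (n * n) / (10000 * (d * d)))

/-- the area form of a pair with the caps, in units of `2 ^ (-83)` -/
def areaB2 (t : Tab) (a : Pair) : Blk :=
  (atoms [a.1, a.2.1], (areaB t a).2 ++ capS (t.sg a.1 a.2.1) (t.sd a.1 * t.sd a.2.1))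

/-- the area forms of a segment with the caps -/
def areaL2 (t : Tab) (P : List Pair) : List Blk := P.map (areaB2 t)

lemma ediv_bd (n : ℤ) {d : ℤ} (h : 0 < d) :
    ((n / d : ℤ) : ℝ) ≤ n / d ∧ (n : ℝ) / d ≤ ((n / d : ℤ) : ℝ) + 1 := by
  have d0 : (0 : ℝ) < d := by exact_mod_cast h
  rw [le_div_iff₀ d0, div_le_iff₀ d0]
  exact ⟨by exact_mod_cast Int.ediv_mul_le n h.ne',
    by exact_mod_cast (Int.lt_ediv_add_one_mul_self n h).le⟩

namespace Ctx

variable {t : Tab} {A η : ℝ} {b : ℂ → ℂ} (h : Ctx t A η b)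
include h

lemma cap_le (s s' : Smp) :
    √3 * bval (xv t b) (atoms [s, s'], capS (t.sg s s') (t.sd s * t.sd s')) ≤
      2 ^ 83 * capv b (t.su s) (t.su s') := by
  have D0 := mul_pos (t.sd_pos h.S0 s) (t.sd_pos h.S0 s')
  have e : cr (t.su s) (t.su s') = √3 * (t.sg s s' / ((t.sd s * t.sd s' : ℤ) : ℝ)) := by
    rw [t.cr_su h.S0]; push_cast; ring
  have n1 := h.geo.ap1_be (h.sun s) h.eta
  have n2 := h.geo.ap1_be (h.sun s') h.eta
  have c1 : |cr (b (t.su s)) (b (t.su s'))| ≤ 1 := by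
    have : cr (b (t.su s)) (b (t.su s')) = (conj (b (t.su s)) * b (t.su s')).im := by
      simp [cr]; ring
    rw [this]
    refine (abs_im_le_norm _).trans ?_
    rw [norm_mul, norm_conj]
    linarith [mul_le_mul n1 n2 (norm_nonneg _) (by norm_num)]
  rw [h.bval_atoms, capv, e]
  generalize t.sg s s' = n at *
  generalize t.sd s * t.sd s' = d at *
  have d0 : (0 : ℝ) < d := by exact_mod_cast D0
  have k0 := (ediv_bd (3438 * 2 ^ 81 * (n * n * n)) (d := 10000 * (d * d * d)) (by positivity)).1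
  have k1 := (ediv_bd (18414 * 2 ^ 81 * (n * n * n)) (d := 10000 * (d * d * d)) (by positivity)).2
  have k3 := (ediv_bd (6138 * 2 ^ 81 * n) (d := 10000 * d) (by positivity)).2
  have k4 := ediv_bd (27513 * 2 ^ 81 * (n * n)) (d := 10000 * (d * d)) (by positivity)
  rw [capS]
  generalize 3438 * 2 ^ 81 * (n * n * n) / (10000 * (d * d * d)) = S0 at *
  generalize 18414 * 2 ^ 81 * (n * n * n) / (10000 * (d * d * d)) = S1 at *
  generalize 6138 * 2 ^ 81 * n / (10000 * d) = S3 at *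
  generalize 27513 * 2 ^ 81 * (n * n) / (10000 * (d * d)) = K at *
  obtain ⟨σ, hσ⟩ : ∃ σ : ℝ, σ = n / d := ⟨_, rfl⟩
  have f0 : ((3438 * 2 ^ 81 * (n * n * n) : ℤ) : ℝ) / ((10000 * (d * d * d) : ℤ) : ℝ) =
      0.3438 * 2 ^ 81 * σ ^ 3 := by rw [hσ]; push_cast; field_simp; ring
  have f1 : ((18414 * 2 ^ 81 * (n * n * n) : ℤ) : ℝ) / ((10000 * (d * d * d) : ℤ) : ℝ) =
      1.8414 * 2 ^ 81 * σ ^ 3 := by rw [hσ]; push_cast; field_simp; ring
  have f3 : ((6138 * 2 ^ 81 * n : ℤ) : ℝ) / ((10000 * d : ℤ) : ℝ) = 0.6138 * 2 ^ 81 * σ := by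
    rw [hσ]; push_cast; field_simp; ring
  have f4 : ((27513 * 2 ^ 81 * (n * n) : ℤ) : ℝ) / ((10000 * (d * d) : ℤ) : ℝ) =
      2.7513 * 2 ^ 81 * σ ^ 2 := by rw [hσ]; push_cast; field_simp; ring
  rw [f0] at k0
  rw [f1] at k1
  rw [f3] at k3
  rw [f4] at k4
  rw [← hσ]
  rw [cr3, abs_mul, abs_of_pos s3_pos] at c1
  rw [cr3]
  have g1 := mul_le_mul_of_nonneg_right k1 (sq_nonneg ‖b (t.su s)‖)
  have g3 := mul_le_mul_of_nonneg_right k3 (sq_nonneg ‖b (t.su s) - b (t.su s')‖)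
  have p3 : (√3 * σ) ^ 3 = √3 * (3 * σ ^ 3) := by linear_combination (√3 * σ ^ 3) * s3
  have p2 : (√3 * σ) ^ 2 = 3 * σ ^ 2 := by linear_combination (σ ^ 2) * s3
  rw [p3, p2]
  simp only [nsq3, sub_re, sub_im, sub_div] at g1 g3 ⊢
  simp only [capT, vals, List.flatMap_cons, List.flatMap_nil, List.append_nil, List.cons_append,
    List.nil_append, tval_cons, tval_nil, dot_cons, dot_nil_left]
  push_cast
  generalize (b (t.su s)).re = x at *
  generalize (b (t.su s)).im / √3 = y at *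
  generalize (b (t.su s')).re = x' at *
  generalize (b (t.su s')).im / √3 = y' at *
  have c2 : |x * y' - y * x'| ≤ 1 := by nlinarith [abs_nonneg (x * y' - y * x'), s3_lo']
  have g4 : (2.7513 * 2 ^ 81 * σ ^ 2 - K) * (x * y' - y * x') ≤ 1 := by
    refine (le_abs_self _).trans ?_
    rw [abs_mul, abs_of_nonneg (by linarith [k4.1])]
    linarith [mul_le_mul (by linarith [k4.2] : 2.7513 * 2 ^ 81 * σ ^ 2 - K ≤ 1) c2 (abs_nonneg _)
      zero_le_one]
  have fin : ∀ l r : ℝ, l ≤ r → ∀ r', r' = √3 * r → √3 * l ≤ r' := fun l r k r' e =>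
    e ▸ mul_le_mul_of_nonneg_left k s3_pos.le
  refine fin _ (2 ^ 83 * (0.3438 * σ ^ 3 - 2.7513 * σ ^ 2 * (x * y' - y * x') -
    0.6138 * σ * ((x - x') ^ 2 + 3 * (y - y') ^ 2) - 1.8414 * σ ^ 3 * (x ^ 2 + 3 * y ^ 2))) ?_ _
    (by ring)
  linarith

lemma area2_le {be : ℕ → ℕ} (hb : Bd t b be) (a : Pair) (k : pairOK t be a = true) :
    √3 * bval (xv t b) (areaB2 t a) ≤ 2 ^ 83 *
      ((relA b (t.su a.1) (t.su a.2.1)).im + capv b (t.su a.1) (t.su a.2.1)) := by
  have k1 := h.area_le hb a k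
  have k2 := h.cap_le a.1 a.2.1
  have k3 := rho_mul_ge (le_max_left ‖b (t.su a.1)‖ ‖b (t.su a.2.1)‖) (le_max_right _ _)
  simp only [pairOK, Bool.and_eq_true, decide_eq_true_eq] at k
  have c0 : 0 ≤ cr (t.su a.1) (t.su a.2.1) := by
    have d1 : (0 : ℝ) < t.sd a.1 := by exact_mod_cast t.sd_pos h.S0 _
    have d2 : (0 : ℝ) < t.sd a.2.1 := by exact_mod_cast t.sd_pos h.S0 _
    have c1 : (0 : ℝ) < t.sg a.1 a.2.1 := by exact_mod_cast k.1.1.1.1.1.1
    rw [t.cr_su h.S0]; positivity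
  have e : bval (xv t b) (areaB2 t a) = bval (xv t b) (areaB t a) +
      bval (xv t b) (atoms [a.1, a.2.1], capS (t.sg a.1 a.2.1) (t.sd a.1 * t.sd a.2.1)) :=
    tval_append _ _ _
  rw [e, relA_im]
  linarith [mul_le_mul_of_nonneg_right k3 c0]

theorem area2 {be : ℕ → ℕ} (hb : Bd t b be) {An Ad c : ℕ} (hA : A = √3 * (An / Ad))
    (S : List (List Pair)) (k : chainOK t be (0, 0) S.flatten = true) (d0 : Nat.ble 1 Ad = true)
    (kc : Nat.ble (2 ^ 83 * An) (3 * c * Ad) = true) :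
    Fact (xv t b) (cstB c :: lsc (-1) (S.map (areaL2 t)).flatten) := by
  obtain ⟨i1, i2, i3⟩ := chain_spec k
  have N0 : 0 < S.flatten.length := by
    by_contra hn
    rw [show S.flatten.length = 0 by omega, nth_zero] at i1
    cases i1
  have e0 : t.su (0, 0) = 1 := by
    rw [Tab.su, t.u_zero h.S0 h.T0]; apply Complex.ext <;> simp [ej, al, bt]
  have e1 : t.su (1, 0) = om := by
    rw [Tab.su, t.u_zero h.S0 h.T0]; apply Complex.ext <;> simp [ej, al, bt, om]; ring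
  have dd : ∀ s, (0 : ℝ) < t.sd s := fun s => by exact_mod_cast t.sd_pos h.S0 s
  have sp : ∀ {s s' : Smp} {β : ℕ}, pairOK t be (s, s', β) = true → 0 < (t.su s').im ∧
      0 < cr (t.su s) om ∧ Nb (t.su s) (t.su s') := by
    intro s s' β k
    simp only [pairOK, Bool.and_eq_true, decide_eq_true_eq] at k
    obtain ⟨⟨⟨⟨⟨⟨k1, k2⟩, k3⟩, k4⟩, k5⟩, -⟩, -⟩ := k
    have d1 := dd s
    have d2 := dd s'
    have c1 : (0 : ℝ) < t.sg s s' := by exact_mod_cast k1
    have c2 : 44 * (t.sg s s' : ℝ) ≤ t.sd s * t.sd s' := by exact_mod_cast k2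
    have c3 : (0 : ℝ) ≤ t.sp s * t.sp s' + 3 * (t.sq s * t.sq s') := by exact_mod_cast k3
    have c4 : (t.sq s : ℝ) < t.sp s := by exact_mod_cast k4
    have c5 : (0 : ℝ) < t.sq s' := by exact_mod_cast k5
    refine ⟨by rw [t.su_eq h.S0]; positivity, ?_, h.sun _, h.sun _,
      by rw [t.cr_su h.S0]; positivity, ?_, ?_⟩
    · have : cr (t.su s) om = √3 / 2 * ((t.sp s - t.sq s) / t.sd s) := by
        rw [t.su_eq h.S0, cr, om]; field_simp
      rw [this]; have := sub_pos.2 c4; positivity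
    · rw [t.cr_su h.S0, ← mul_div_assoc, div_le_iff₀ (by positivity)]
      nlinarith [s3_hi]
    · have : (conj (t.su s) * t.su s').re =
          (t.sp s * t.sp s' + 3 * (t.sq s * t.sq s')) / (t.sd s * t.sd s') := by
        rw [t.su_eq h.S0, t.su_eq h.S0]
        simp only [mul_re, conj_re, conj_im]
        field_simp
        linear_combination ((t.sq s : ℝ) * t.sq s') * s3
      rw [this]; positivity
  have key := h.geo.ap4 h.eta (u := fun m => t.su (nth (0, 0) S.flatten m))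
    ⟨N0, by simpa only [nth_zero] using e0, by simpa only [i1] using e1,
      fun m m0 hm => by
        obtain ⟨β, k⟩ := i2 (m - 1) (by omega)
        simpa only [show m - 1 + 1 = m by omega] using (sp k).1,
      fun m hm => let ⟨_, k⟩ := i2 m hm; (sp k).2.1, fun m hm => let ⟨_, k⟩ := i2 m hm; (sp k).2.2⟩
  have k2 := i3 (fun s s' => 2 ^ 83 * ((relA b (t.su s) (t.su s')).im + capv b (t.su s) (t.su s'))) _
    (h.area2_le hb)
  rw [← Finset.mul_sum, List.sum_map_mul_left] at k2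
  have e : (S.map (areaL2 t)).flatten = S.flatten.map (areaB2 t) := by
    rw [List.map_flatten]; rfl
  have A0 : (0 : ℝ) < Ad := by exact_mod_cast Nat.le_of_ble_eq_true d0
  have c1 : 2 ^ 83 * (An / Ad : ℝ) ≤ 3 * c := by
    rw [← mul_div_assoc, div_le_iff₀ A0]; exact_mod_cast Nat.le_of_ble_eq_true kc
  rw [Fact, lval_cons, lval_lsc, bval_cstB h.adm, e, lval_eq_sum, List.map_map]
  have c2 := mul_le_mul_of_nonneg_left c1 s3_pos.le
  have : √3 * (S.flatten.map (bval (xv t b) ∘ areaB2 t)).sum ≤ √3 * c := by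
    rw [hA] at key
    change √3 * (S.flatten.map (bval (xv t b) ∘ areaB2 t)).sum ≤ _ at k2
    linarith
  have := le_of_mul_le_mul_left this s3_pos
  push_cast
  linarith

end Ctx

end Pool.Agent.Lib.MP_fb520c_co.Asm
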