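import Pool.Agent.Lib.MP_fb520c_co.Asm.Chain
import Pool.Agent.Lib.MP_fb520c_co.Dent.LocId

/-! The area between the curve and the inscribed polygon. -/

set_option autoImplicit false

open Complex ComplexConjugate

noncomputable section

namespace Pool.Agent.Lib.MP_fb520c_co.Dent

/-- two close directions -/
structure Nb (u v : ℂ) : Prop where
  hu : ‖u‖ = 1
  hv : ‖v‖ = 1
  s0 : 0 < cr u v
  s1 : cr u v ≤ 1 / 25
  re : 0 ≤ (conj u * v).re

/-- the middle direction -/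
def mid (u v : ℂ) : ℂ := ((‖u + v‖⁻¹ : ℝ) : ℂ) * (u + v)

lemma cap_lip {x y : ℂ} {be : ℝ} (hx : ‖x‖ ≤ be) (hy : ‖y‖ ≤ be) :
    |rho x - rho y| ≤ be * ‖x - y‖ := by
  have r1 := one_le_rho x
  have r2 := one_le_rho y
  have a : |rho x - rho y| * (rho x + rho y) = |‖x‖ - ‖y‖| * (‖x‖ + ‖y‖) := by
    rw [← abs_of_nonneg (a := rho x + rho y) (by linarith),
      ← abs_of_nonneg (a := ‖x‖ + ‖y‖) (by positivity), ← abs_mul, ← abs_mul]
    congr 1
    linear_combination rho_sq x - rho_sq y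
  have := mul_le_mul (abs_norm_sub_norm_le x y) (add_le_add hx hy) (by positivity) (norm_nonneg _)
  nlinarith [mul_le_mul_of_nonneg_left (add_le_add r1 r2) (abs_nonneg (rho x - rho y))]

namespace Nb

variable {u v : ℂ} (h : Nb u v)
include h

lemma cs : (conj u * v).re ^ 2 + cr u v ^ 2 = 1 ∧ ‖u + v‖ ^ 2 = 2 + 2 * (conj u * v).re := by
  have e1 := nsq u
  have e2 := nsq v
  rw [h.hu] at e1
  rw [h.hv] at e2
  rw [nsq]
  simp only [cr, mul_re, conj_re, conj_im, add_re, add_im]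
  exact ⟨by linear_combination (-(v.re ^ 2 + v.im ^ 2)) * e1 - e2, by linear_combination -e1 - e2⟩

lemma cs1 : 0 ≤ 1 - (conj u * v).re ∧ 1 - (conj u * v).re ≤ 0.02001 * cr u v := by
  have e := h.cs.1
  have s0 := h.s0
  have s1 := h.s1
  have c0 := h.re
  generalize (conj u * v).re = c at *
  generalize cr u v = s at *
  have c1 : c ≤ 1 := by nlinarith
  have c2 : 0.9991 ≤ c := by nlinarith
  exact ⟨by linarith, by nlinarith⟩

lemma nn : 1.9995 ≤ ‖u + v‖ ∧ ‖u + v‖ ≤ 2 ∧ 2 - ‖u + v‖ ≤ 0.0101 * cr u v := by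
  have e := h.cs.2
  have k := h.cs1
  have s1 := h.s1
  have n0 := norm_nonneg (u + v)
  generalize ‖u + v‖ = n at *
  have a : 1.9995 ≤ n := by nlinarith
  have b : n ≤ 2 := by nlinarith
  exact ⟨a, b, by nlinarith⟩

lemma mid_spec : Nb u (mid u v) ∧ Nb (mid u v) v ∧ cr u (mid u v) = cr u v / ‖u + v‖ ∧
    cr (mid u v) v = cr u v / ‖u + v‖ ∧ ‖u + v - 2 * mid u v‖ ≤ 0.0101 * cr u v := by
  obtain ⟨n1, n2, n3⟩ := h.nn
  have n0 : 0 < ‖u + v‖ := by linarith
  have e1 := nsq u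
  have e2 := nsq v
  rw [h.hu] at e1
  rw [h.hv] at e2
  have w1 : ‖mid u v‖ = 1 := by
    rw [mid, norm_mul, norm_real, norm_inv, norm_norm, inv_mul_cancel₀ n0.ne']
  have a1 : cr u (mid u v) = cr u v / ‖u + v‖ := by
    simp only [mid, cr, re_ofReal_mul, im_ofReal_mul, add_re, add_im]; field_simp; ring
  have a2 : cr (mid u v) v = cr u v / ‖u + v‖ := by
    simp only [mid, cr, re_ofReal_mul, im_ofReal_mul, add_re, add_im]; field_simp; ring
  have a3 : (conj u * mid u v).re = (1 + (conj u * v).re) / ‖u + v‖ := by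
    rw [mul_re, mul_re]
    simp only [mid, re_ofReal_mul, im_ofReal_mul, add_re, add_im, conj_re, conj_im]
    field_simp
    linear_combination -e1
  have a4 : (conj (mid u v) * v).re = (1 + (conj u * v).re) / ‖u + v‖ := by
    rw [mul_re, mul_re]
    simp only [mid, re_ofReal_mul, im_ofReal_mul, add_re, add_im, conj_re, conj_im]
    field_simp
    linear_combination -e2
  have p0 : 0 < cr u v / ‖u + v‖ := div_pos h.s0 n0
  have p1 : cr u v / ‖u + v‖ ≤ 1 / 25 := by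
    rw [div_le_iff₀ n0]; linarith [h.s1]
  have p2 : 0 ≤ (1 + (conj u * v).re) / ‖u + v‖ := div_nonneg (by linarith [h.re]) n0.le
  refine ⟨⟨h.hu, w1, a1 ▸ p0, a1 ▸ p1, a3 ▸ p2⟩, ⟨w1, h.hv, a2 ▸ p0, a2 ▸ p1, a4 ▸ p2⟩, a1, a2, ?_⟩
  have : u + v - 2 * mid u v = ((‖u + v‖ - 2 : ℝ) : ℂ) * mid u v := by
    have : ((‖u + v‖ : ℝ) : ℂ) ≠ 0 := by exact_mod_cast n0.ne'
    rw [mid]; push_cast; field_simp
  rw [this, norm_mul, w1, norm_real, Real.norm_eq_abs, abs_of_nonpos (by linarith)]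
  linarith

lemma half : cr u v / 2 ≤ cr u v / ‖u + v‖ ∧ cr u v / ‖u + v‖ ≤ 0.5002 * cr u v := by
  obtain ⟨n1, n2, -⟩ := h.nn
  have n0 : 0 < ‖u + v‖ := by linarith
  refine ⟨div_le_div_of_nonneg_left h.s0.le n0 n2, ?_⟩
  rw [div_le_iff₀ n0]
  nlinarith [h.s0]

end Nb

/-- a chain of close directions from `1` to the root of unity -/
structure Chn (N : ℕ) (u : ℕ → ℂ) : Prop where
  pos : 0 < N
  h0 : u 0 = 1
  hn : u N = om
  him : ∀ m, 0 < m → m < N → 0 < (u m).im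
  hom : ∀ m < N, 0 < cr (u m) om
  nb : ∀ m < N, Nb (u m) (u (m + 1))

lemma cap_sum (f : ℕ → ℝ) (N : ℕ) : ∑ k ∈ Finset.range (2 * N), f k =
    ∑ m ∈ Finset.range N, (f (2 * m) + f (2 * m + 1)) := by
  induction N with
  | zero => simp
  | succ N ih =>
    rw [show 2 * (N + 1) = 2 * N + 1 + 1 by ring, Finset.sum_range_succ, Finset.sum_range_succ,
      Finset.sum_range_succ, ih, add_assoc]

lemma cap_refine {A : ℝ} {g g' : ℂ → ℂ → ℝ}
    (H : ∀ N u, Chn N u → 3 * ∑ m ∈ Finset.range N, g (u m) (u (m + 1)) ≤ A)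
    (k : ∀ u v, Nb u v → g' u v ≤ g u (mid u v) + g (mid u v) v) :
    ∀ N u, Chn N u → 3 * ∑ m ∈ Finset.range N, g' (u m) (u (m + 1)) ≤ A := by
  intro N u c
  let w : ℕ → ℂ := fun j => if j % 2 = 0 then u (j / 2) else mid (u (j / 2)) (u (j / 2 + 1))
  have w0 : ∀ m, w (2 * m) = u m := fun m => by
    simp only [w]; rw [if_pos (by omega), show 2 * m / 2 = m by omega]
  have w1 : ∀ m, w (2 * m + 1) = mid (u m) (u (m + 1)) := fun m => by
    simp only [w]; rw [if_neg (by omega), show (2 * m + 1) / 2 = m by omega]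
  have w2 : ∀ m, w (2 * m + 1 + 1) = u (m + 1) := fun m => w0 (m + 1)
  have ev : ∀ j, ∃ m, j = 2 * m ∨ j = 2 * m + 1 := fun j => ⟨j / 2, by omega⟩
  have np : ∀ m < N, 0 < ‖u m + u (m + 1)‖⁻¹ := fun m hm =>
    inv_pos.2 (by linarith [(c.nb m hm).nn.1])
  have cw : Chn (2 * N) w := by
    refine ⟨by linarith [c.pos], (w0 0).trans c.h0, (w0 N).trans c.hn, fun j j0 j1 => ?_,
      fun j j1 => ?_, fun j j1 => ?_⟩
    · obtain ⟨m, rfl | rfl⟩ := ev j
      · rw [w0]; exact c.him m (by omega) (by omega)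
      · have hm : m < N := by omega
        rw [w1, mid, im_ofReal_mul, add_im]
        refine mul_pos (np m hm) (add_pos_of_nonneg_of_pos ?_ ?_)
        · rcases m.eq_zero_or_pos with e | e
          · rw [e, c.h0]; simp
          · exact (c.him m e hm).le
        · rcases (Nat.succ_le_of_lt hm).lt_or_eq with e | e
          · exact c.him _ m.succ_pos e
          · rw [show m + 1 = N from e, c.hn, om_im]; positivity
    · obtain ⟨m, rfl | rfl⟩ := ev j
      · rw [w0]; exact c.hom m (by omega)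
      · have hm : m < N := by omega
        have : cr (mid (u m) (u (m + 1))) om =
            ‖u m + u (m + 1)‖⁻¹ * (cr (u m) om + cr (u (m + 1)) om) := by
          simp only [mid, cr, re_ofReal_mul, im_ofReal_mul, add_re, add_im]; ring
        rw [w1, this]
        refine mul_pos (np m hm) (add_pos_of_pos_of_nonneg (c.hom m hm) ?_)
        rcases (Nat.succ_le_of_lt hm).lt_or_eq with e | e
        · exact (c.hom _ e).le
        · rw [show m + 1 = N from e, c.hn, cr]; linarith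
    · obtain ⟨m, rfl | rfl⟩ := ev j
      · rw [w0, w1]; exact (c.nb m (by omega)).mid_spec.1
      · rw [w1, w2]; exact (c.nb m (by omega)).mid_spec.2.1
  refine le_trans ?_ (H _ w cw)
  rw [cap_sum]
  refine mul_le_mul_of_nonneg_left (Finset.sum_le_sum fun m hm => ?_) (by norm_num)
  rw [w0, w1, w2]
  exact k _ _ (c.nb m (Finset.mem_range.1 hm))

lemma cap_num {I R C s q z sn k0 k1 k2 T x y : ℝ} (hI : I = 2 * (√3 * T)) (I0 : 0 < I)
    (hR : R ^ 2 = 4 * (x ^ 2 + 3 * y ^ 2)) (R0 : 0 ≤ R) (R1 : R ≤ I) (hs : 4 * s = I ^ 2 - R ^ 2)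
    (q0 : 0.999 ≤ q) (hq : s = q * (1 - q)) (z1 : z ≤ 0.00525 * sn ^ 2)
    (h0 : 0 ≤ k0) (h1 : 0 ≤ k1) (h2 : 0 ≤ k2) (hC : 3 * C = √3 * (k0 + k1 + k2)) {d : ℝ} (d0 : 0 ≤ d)
    (ex : k0 * (T - 2 * y) + k1 * (T + y + x) + k2 * (T + y - x) =
      s ^ 2 / q ^ 2 + s * d / (4 * q) - s * z / (4 * q)) {φ : ℝ}
    (hφ : φ * (I + 2 * R) ≤ (I ^ 2 - R ^ 2) ^ 2) : φ - 0.0053 * sn ^ 2 * I ≤ 8 * C := by
  have s0 : 0 ≤ s := by nlinarith
  have q1 : q ≤ 1 := by
    by_contra hn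
    push Not at hn
    nlinarith
  have qp : 0 < q := by linarith
  have b : ∀ t : ℝ, 3 * t ^ 2 ≤ R ^ 2 → √3 * t ≤ R := fun t ht =>
    (abs_le_of_sq_le_sq' (by rw [mul_pow, sq (√3), s3]; exact ht) R0).2
  have b0 := b (-2 * y) (by nlinarith [sq_nonneg x])
  have b1 := b (y + x) (by nlinarith [sq_nonneg (x - 3 * y)])
  have b2 := b (y - x) (by nlinarith [sq_nonneg (x + 3 * y)])
  have e1 : s ^ 2 ≤ s ^ 2 / q ^ 2 := by
    rw [le_div_iff₀ (by positivity)]
    nlinarith [mul_le_mul_of_nonneg_left (pow_le_one₀ qp.le q1 (n := 2)) (sq_nonneg s)]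
  have e2 : 0 ≤ s * d / (4 * q) := by positivity
  have e3 : s * z / (4 * q) ≤ s * (0.0053 * sn ^ 2) / 4 := by
    rw [div_le_div_iff₀ (by positivity) (by norm_num)]
    have : z ≤ 0.0053 * sn ^ 2 * q := by nlinarith [sq_nonneg sn]
    nlinarith [mul_le_mul_of_nonneg_left this s0]
  have e4 : √3 * (k0 * (T - 2 * y) + k1 * (T + y + x) + k2 * (T + y - x)) ≤
      (k0 + k1 + k2) * (I / 2 + R) := by
    nlinarith [mul_le_mul_of_nonneg_left b0 h0, mul_le_mul_of_nonneg_left b1 h1,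
      mul_le_mul_of_nonneg_left b2 h2]
  have e5 : k0 * (T - 2 * y) + k1 * (T + y + x) + k2 * (T + y - x) ≤ C * (I / 2 + R) := by
    have := mul_le_mul_of_nonneg_left e4 s3_pos.le
    rw [← mul_assoc, s3, ← mul_assoc, ← hC] at this
    linarith
  have e6 : s ≤ I * (I + 2 * R) / 4 := by nlinarith
  have e7 := mul_le_mul_of_nonneg_right e6 (by positivity : 0 ≤ 0.0053 * sn ^ 2)
  refine le_of_mul_le_mul_right ?_ (by linarith : 0 < I + 2 * R)
  rw [← hs] at hφ
  nlinarith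

section

variable {A η : ℝ} {b : ℂ → ℂ} (hG : Geo A η b) (hη : η ≤ 2.62652)
include hG hη

theorem Geo.be_all {u : ℂ} (hu : ‖u‖ = 1) : ‖b u‖ ≤ 0.1101 := by
  have f : ∀ w : ℂ, ‖w‖ = 1 → 0.866 ≤ |w.re| → ‖b w‖ ≤ 0.1101 := fun w hw h => by
    rcases le_abs.1 h with h | h
    · linarith [hG.be3 hη hw h]
    · have := hG.be3 hη (u := -w) (by rwa [norm_neg]) (by rwa [Complex.neg_re])
      rw [hG.b_neg hw, norm_neg, Complex.neg_re] at this
      linarith
  by_contra hn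
  have g : ∀ w : ℂ, ‖w‖ = 1 → ‖b w‖ = ‖b u‖ → |w.re| ≤ 0.866 := fun w hw e =>
    le_of_not_ge fun h => hn (e ▸ f w hw h)
  have k0 := g u hu rfl
  have k1 := g _ (norm_om_mul hu) (hG.norm_rot hu)
  have k2 := g _ (norm_om_mul (norm_om_mul hu))
    ((hG.norm_rot (norm_om_mul hu)).trans (hG.norm_rot hu))
  obtain ⟨y, hy⟩ : ∃ y, u.im = √3 * y := ⟨_, (mul_div_cancel₀ _ s3_pos.ne').symm⟩
  simp only [Complex.mul_re, Complex.mul_im, om_re, om_im, hy] at k1 k2
  have := three_bound (y := y) k0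
    (by rw [← abs_neg]; convert k1 using 2; linear_combination (y / 2) * s3)
    (by convert k2 using 2; linear_combination (y / 2 + u.re / 4) * s3)
  have e := nsq u
  rw [hu, hy, mul_pow, sq (√3), s3] at e
  norm_num at this
  linarith

lemma Geo.nb_ap {u v : ℂ} (h : Nb u v) : Ap2 b 0.1101 1.0061 0.4201 u v :=
  hG.ap2' h.hu h.hv (hG.be_all hη h.hu) (hG.be_all hη h.hv) (by norm_num) h.s0 h.s1 h.re
    (by norm_num) (by linarith [h.s1])

lemma Geo.nb_lip {u v : ℂ} (h : Nb u v) {sn : ℝ} (k : cr u v ≤ 0.5002 * sn) (s1 : sn ≤ 1 / 25) :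
    |rho (b v) - rho (b u)| ≤ 0.0311 * sn := by
  have a := hG.nb_ap hη h
  have a1 := a.up
  have a2 := a.db
  have a3 := a.pos
  have := cap_lip (hG.be_all hη h.hv) (hG.be_all hη h.hu)
  generalize (relA b u v).im = I at *
  have i1 : I ≤ 0.5277 * sn := by linarith
  have i2 : I * I ≤ I * 0.02111 := mul_le_mul_of_nonneg_left (by linarith) a3.le
  linarith

theorem Geo.cap {u v : ℂ} (h : Nb u v) {φ : ℝ}
    (hφ : φ * ((relA b u v).im + 2 * ‖relB b u v‖) ≤
      ((relA b u v).im ^ 2 - ‖relB b u v‖ ^ 2) ^ 2) :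
    φ - 0.0053 * cr u v ^ 2 * (relA b u v).im ≤
      8 * ((relA b u (mid u v)).im + (relA b (mid u v) v).im - (relA b u v).im) := by
  obtain ⟨m1, m2, m3, m4, m5⟩ := h.mid_spec
  have a := hG.nb_ap hη h
  obtain ⟨k0, k1, k2⟩ := hG.curv one_pos h.hu m1.hv h.hv (hG.nb_ap hη m1).crp (hG.nb_ap hη m2).crp
    a.crp
  have l1 := hG.nb_lip hη m1 (m3 ▸ h.half.2) h.s1
  have l2 := hG.nb_lip hη m2 (m4 ▸ h.half.2) h.s1
  have r0 := one_le_rho (b (mid u v))
  have r1 := rho_le (hG.be_all hη m1.hv)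
  have hw := m1.hv
  generalize mid u v = w at *
  set L := Loc.of b 1 u w v with hL
  have h0 : L.h ≠ 0 := one_ne_zero
  have e1 : (relA b u v).im = 2 * 1 * (√3 * L.Th) := L.relA_im h0
  have e2 : (relA b u v).re = 2 * L.q - 1 := L.relA_re h0 h.hu h.hv
  have e3 : relB b u v = ((2 * 1 : ℝ) : ℂ) * L.Z := L.relB_eq h0
  have e4 : ‖relB b u v‖ ^ 2 = 4 * (L.Zx ^ 2 + 3 * L.Zy ^ 2) := by
    rw [e3, norm_mul, mul_pow, L.Zsq, norm_real]; norm_num
  have i1 : (relA b u v).im ≤ 0.0422 := by linarith [a.up, h.s1]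
  have q0 : 0.999 ≤ L.q := by
    have := a.re
    rw [le_div_iff₀ (by norm_num)] at this
    linarith [pow_le_pow_left₀ a.pos.le i1 2]
  have ex := L.exact h0 h.hu hw h.hv (by linarith)
  have o := (L.outer h0 h.hu h.hv).2
  have sq := L.s_q h0 h.hu h.hv
  have hh : L.h = 1 := rfl
  have ez : L.ze = rho (b w) * (u + v - 2 * w) + ((rho (b v) - rho (b w) : ℝ) : ℂ) * v +
      ((rho (b u) - rho (b w) : ℝ) : ℂ) * u := by
    have x1 := L.ap_eq h0
    have x2 := L.am_eq h0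
    have x3 := L.a0_eq h0
    rw [hh] at x1 x2 x3
    change (rho (b v) : ℂ) * v = _ at x1
    change (rho (b u) : ℂ) * u = _ at x2
    change (rho (b w) : ℂ) * w = _ at x3
    push_cast at x1 x2 x3 ⊢
    linear_combination 2 * x3 - x1 - x2
  have zz : ‖L.ze‖ ≤ 0.0724 * cr u v := by
    rw [ez]
    refine (norm_add₃_le ..).trans ?_
    rw [norm_mul, norm_mul, norm_mul, h.hu, h.hv, norm_real, norm_real, norm_real, Real.norm_eq_abs,
      Real.norm_eq_abs, Real.norm_eq_abs, abs_of_nonneg (a := rho (b w)) (by linarith),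
      abs_sub_comm (rho (b u))]
    have := mul_le_mul r1 m5 (norm_nonneg _) (by norm_num)
    linarith [h.s0]
  have eC : √3 * L.Cy = (relA b u w).im + (relA b w v).im - (relA b u v).im := by
    have x1 := L.kappa h0 1 0
    have x2 := L.kappa h0 0 1
    simp only [one_mul, zero_mul, add_zero, zero_add, hh, one_pow] at x1 x2
    rw [← L.C_eq, ← x1, ← x2, relA_im, relA_im, relA_im]
    simp only [hL, Loc.of, cr, sub_re, sub_im, re_ofReal_mul, im_ofReal_mul]
    ring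
  refine cap_num (T := L.Th) (x := L.Zx) (y := L.Zy) (s := L.s) (q := L.q) (z := ‖L.ze‖ ^ 2)
    (by linarith) a.pos e4 (norm_nonneg _) (by linarith [a.bb, a.pos]) ?_ q0 ?_ ?_ k0 k1 k2
    (by linarith) (d := ‖L.D‖ ^ 2) (sq_nonneg _) ?_ hφ
  · rw [e4, e1, Loc.s]; linear_combination (-4 * L.Th ^ 2) * s3
  · rw [hh] at o
    rw [sq]; congr 1; linarith
  · nlinarith [pow_le_pow_left₀ (norm_nonneg _) zz 2, sq_nonneg (cr u v)]
  · rw [Loc.C0, hh] at ex
    linear_combination ex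

lemma Geo.cap_const {u v : ℂ} (h : Nb u v) : (relA b u v).im + 0.0387 * cr u v ^ 3 ≤
    (relA b u (mid u v)).im + (relA b (mid u v) v).im := by
  have a := hG.nb_ap hη h
  have a1 := a.up
  have a2 := a.lo
  have a3 := a.pos
  have a4 := a.bb
  have R0 := norm_nonneg (relB b u v)
  have k := hG.cap hη h (φ := 0.368 * (relA b u v).im ^ 3) (by
    generalize (relA b u v).im = I at *
    generalize ‖relB b u v‖ = R at *
    have t1 : 0.8235 * I ^ 2 ≤ I ^ 2 - R ^ 2 := by nlinarith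
    have t2 := pow_le_pow_left₀ (by positivity) t1 2
    have t3 := mul_le_mul_of_nonneg_left a4 (pow_pos a3 3).le
    nlinarith [pow_pos a3 4])
  have s0 := h.s0
  generalize (relA b u v).im = I at *
  generalize cr u v = s at *
  have t1 := pow_le_pow_left₀ (by positivity) (by linarith : 0.9502 * s ≤ I) 3
  have t2 := mul_le_mul_of_nonneg_left (by linarith : I ≤ 1.055 * s) (sq_nonneg s)
  nlinarith [pow_pos s0 3]

lemma Geo.cap_relB {u v : ℂ} (h : Nb u v) : ‖relB b u v‖ ^ 2 ≤ 1.0577 *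
    (‖b u - b v‖ ^ 2 + 2 * cr u v * cr (b u) (b v) + cr u v ^ 2 * ‖b u‖ ^ 2) +
      0.00067 * cr u v ^ 2 := by
  have b1 := hG.be_all hη h.hu
  have b2 := hG.be_all hη h.hv
  have r0 := one_le_rho (b u)
  have r1 := rho_le b1
  have l := cap_lip b2 b1
  obtain ⟨c0, c1⟩ := h.cs1
  have s0 := h.s0
  obtain ⟨δ, hδ⟩ : ∃ δ, δ = b v - b u + I * cr u v * b u := ⟨_, rfl⟩
  have e1 : ‖δ‖ ^ 2 =
      ‖b u - b v‖ ^ 2 + 2 * cr u v * cr (b u) (b v) + cr u v ^ 2 * ‖b u‖ ^ 2 := by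
    rw [hδ]
    generalize cr u v = s
    simp only [nsq, cr, add_re, add_im, sub_re, sub_im, mul_re, mul_im, I_re, I_im, ofReal_re,
      ofReal_im]
    ring
  have e2 : ‖b v - b u‖ ≤ ‖δ‖ + cr u v * 0.1101 := by
    rw [show b v - b u = δ - I * cr u v * b u by rw [hδ]; ring]
    refine (norm_sub_le _ _).trans ?_
    rw [norm_mul, norm_mul, norm_I, norm_real, one_mul, Real.norm_eq_abs, abs_of_pos s0]
    linarith [mul_le_mul_of_nonneg_left b1 s0.le]
  have uu : u * conj u = 1 := by rw [Complex.mul_conj', h.hu]; simp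
  have uv : u * conj v = ((conj u * v).re : ℝ) - I * cr u v := by
    apply Complex.ext <;> (simp [cr]; try ring)
  have e3 : u * relB b u v = rho (b u) * (δ + ((1 - (conj u * v).re : ℝ) : ℂ) * b u) -
      ((rho (b v) - rho (b u) : ℝ) : ℂ) * (b u * (u * conj v)) := by
    rw [relB, hδ]
    push_cast
    linear_combination (rho (b u) * b v) * uu - (rho (b u) * b u) * uv
  have e4 : ‖relB b u v‖ ≤ 1.0183 * ‖δ‖ + 0.0036 * cr u v := by
    have x := congrArg norm e3
    rw [norm_mul, h.hu, one_mul] at x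
    rw [x]
    refine (norm_sub_le _ _).trans ?_
    rw [norm_mul, norm_mul, norm_mul, norm_mul, h.hu, norm_conj, h.hv, norm_real, norm_real,
      Real.norm_eq_abs, Real.norm_eq_abs, abs_of_nonneg (a := rho (b u)) (by linarith)]
    have x1 : ‖δ + ((1 - (conj u * v).re : ℝ) : ℂ) * b u‖ ≤ ‖δ‖ + 0.02001 * cr u v * 0.1101 := by
      refine (norm_add_le _ _).trans ?_
      rw [norm_mul, norm_real, Real.norm_eq_abs, abs_of_nonneg c0]
      linarith [mul_le_mul c1 b1 (norm_nonneg _) (by positivity)]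
    have x2 := mul_le_mul r1 x1 (norm_nonneg _) (by norm_num)
    have x3 := mul_le_mul (l.trans (mul_le_mul_of_nonneg_left e2 (by norm_num))) b1 (norm_nonneg _)
      (by positivity)
    linarith [norm_nonneg δ]
  rw [← e1]
  nlinarith [pow_le_pow_left₀ (norm_nonneg _) e4 2, sq_nonneg (0.02 * 1.0183 * ‖δ‖ - 0.0036 * cr u v),
    sq_nonneg ‖δ‖, sq_nonneg (cr u v)]

/-- the lower bound of the caps over a pair -/
def capv (b : ℂ → ℂ) (u v : ℂ) : ℝ := 0.1146 * cr u v ^ 3 - 0.9171 * cr u v ^ 2 * cr (b u) (b v) -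
  0.6138 * cr u v * ‖b u - b v‖ ^ 2 - 0.6138 * cr u v ^ 3 * ‖b u‖ ^ 2

lemma Geo.cap_quad {u v : ℂ} (h : Nb u v) : (relA b u v).im + capv b u v - 0.012 * cr u v ^ 3 ≤
    (relA b u (mid u v)).im + (relA b (mid u v) v).im := by
  have a := hG.nb_ap hη h
  have a1 := a.up
  have a3 := a.pos
  have R0 := norm_nonneg (relB b u v)
  have k := hG.cap hη h
    (φ := 0.83 * (relA b u v).im ^ 3 - 4.4 * (relA b u v).im * ‖relB b u v‖ ^ 2) (by
    generalize (relA b u v).im = I at *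
    generalize ‖relB b u v‖ = R at *
    nlinarith [mul_nonneg (mul_nonneg a3.le R0) (sq_nonneg (R - 0.175 * I)),
      mul_nonneg (sq_nonneg I) (sq_nonneg (R - 0.176 * I)), sq_nonneg (R ^ 2),
      mul_nonneg (sq_nonneg I) (sq_nonneg I), mul_nonneg (sq_nonneg I) (sq_nonneg R)])
  have r := hG.cap_relB hη h
  have s0 := h.s0
  have lo : cr u v + cr (b u) (b v) ≤ (relA b u v).im := by
    rw [relA_im]
    nlinarith [mul_le_mul (one_le_rho (b u)) (one_le_rho (b v)) zero_le_one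
      (by linarith [one_le_rho (b u)])]
  rw [capv]
  generalize (relA b u v).im = I at *
  generalize cr u v = s at *
  have t1 := mul_le_mul (by linarith : I ≤ 1.055 * s) r (sq_nonneg _) (by positivity)
  have t2 := mul_nonneg (sq_nonneg (I - s)) (by positivity : 0 ≤ I + 2 * s)
  have t3 := mul_le_mul_of_nonneg_left lo (sq_nonneg s)
  have t4 := mul_nonneg s0.le ((sq_nonneg _).trans r)
  have t5 := mul_pos a3 (pow_pos s0 2)
  linarith [pow_pos s0 3]

/-- the area bound with the caps -/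
theorem Geo.ap4 {N : ℕ} {u : ℕ → ℂ} (c : Chn N u) :
    3 * ∑ m ∈ Finset.range N, ((relA b (u m) (u (m + 1))).im + capv b (u m) (u (m + 1))) ≤ A := by
  have H0 : ∀ N u, Chn N u → 3 * ∑ m ∈ Finset.range N,
      ((relA b (u m) (u (m + 1))).im + 0 * cr (u m) (u (m + 1)) ^ 3) ≤ A := fun N u c => by
    simp only [relA_im, zero_mul, add_zero]
    refine hG.ap3 hη c.pos (fun m hm => ?_) c.h0 c.hn c.him c.hom (fun m hm => (c.nb m hm).s0)
      (fun m hm => (c.nb m hm).s1) (fun m hm => (c.nb m hm).re)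
    rcases hm.lt_or_eq with e | e
    · exact (c.nb m e).hu
    · rw [e, c.hn, norm_om]
  have q : ∀ u v, Nb u v → cr u v ^ 3 / 8 ≤ cr u (mid u v) ^ 3 ∧
      cr u v ^ 3 / 8 ≤ cr (mid u v) v ^ 3 := fun u v h => by
    have := pow_le_pow_left₀ (by linarith [h.s0]) h.half.1 3
    rw [h.mid_spec.2.2.1, h.mid_spec.2.2.2.1]
    exact ⟨by linarith, by linarith⟩
  have H1 := cap_refine (g := fun u v => (relA b u v).im + 0 * cr u v ^ 3)
    (g' := fun u v => (relA b u v).im + 0.0387 * cr u v ^ 3) H0 fun u v h => by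
      linarith [hG.cap_const hη h]
  have H2 := cap_refine (g := fun u v => (relA b u v).im + 0.0387 * cr u v ^ 3)
    (g' := fun u v => (relA b u v).im + 0.0483 * cr u v ^ 3) H1 fun u v h => by
      linarith [hG.cap_const hη h, q u v h, pow_pos h.s0 3]
  exact cap_refine (g := fun u v => (relA b u v).im + 0.0483 * cr u v ^ 3)
    (g' := fun u v => (relA b u v).im + capv b u v) H2 (fun u v h => by
      linarith [hG.cap_quad hη h, q u v h, pow_pos h.s0 3]) N u c

end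

end Pool.Agent.Lib.MP_fb520c_co.Dent
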