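import Pool.Agent.Lib.MP_fb520c_co.Asm.Psd
import Pool.Agent.Lib.MP_fb520c_co.Chk.Run

/-! The form of one cell as a fact. -/

set_option autoImplicit false

namespace Pool.Agent.Lib.MP_fb520c_co.Asm

open Dent Chk

/-- the directions of three samples -/
def dirs (t : Tab) (h : ℚ) (s0 s1 s2 : Smp) : Dirs :=
  ⟨h, t.sp s0 / t.sd s0, t.sq s0 / t.sd s0, t.sp s1 / t.sd s1, t.sq s1 / t.sd s1,
    t.sp s2 / t.sd s2, t.sq s2 / t.sd s2⟩

lemma qe_su {t : Tab} (h : 0 < t.S) (s : Smp) :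
    qe (t.sp s / t.sd s) (t.sq s / t.sd s) = t.su s := by
  rw [t.su_eq h, qe]; push_cast; rw [mul_comm]

/-- the bound of the cell dominates the bounds of the table -/
def beOK (be : ℕ → ℕ) (β : ℚ) (s0 s1 s2 : Smp) : Bool :=
  decide (((max (be s0.2) (max (be s1.2) (be s2.2)) : ℕ) : ℚ) ≤ β * 2 ^ 32)

theorem Ctx.cell {t : Tab} {A η : ℝ} {b : ℂ → ℂ} (h : Ctx t A η b) {be : ℕ → ℕ} (hb : Bd t b be)
    {p : ParQ} {r : ℚ} {s0 s1 s2 : Smp} {c1 c2 c3 : C} {Tc : ℤ} {q : QC} {w : Wt} {H s : ℕ}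
    {G : Terms} (k1 : p.Good (dirs t r s0 s1 s2)) (k2 : beOK be p.be s0 s1 s2 = true)
    (k3 : runOK p (dirs t r s0 s1 s2) c1 c2 c3 Tc q w H s G = true)
    (k4 : ∀ L : Loc, L.h = r → Out p.par L → 0 ≤ q.Qv (L.Th - Tc / sc) L.Zx L.Zy L.Wx L.Wy) :
    Fact (xv t b) [(atoms [s0, s1, s2], G)] := by
  have e0 : (dirs t r s0 s1 s2).um = t.su s0 := qe_su h.S0 s0
  have e1 : (dirs t r s0 s1 s2).u0 = t.su s1 := qe_su h.S0 s1
  have e2 : (dirs t r s0 s1 s2).up = t.su s2 := qe_su h.S0 s2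
  have k : ((max (be s0.2) (max (be s1.2) (be s2.2)) : ℕ) : ℝ) ≤ p.be * 2 ^ 32 := by
    exact_mod_cast of_decide_eq_true k2
  have f : ∀ s : Smp, be s.2 ≤ max (be s0.2) (max (be s1.2) (be s2.2)) → ‖b (t.su s)‖ ≤ p.be := by
    intro s hs
    rw [h.nsu]
    refine (hb _).trans ?_
    rw [div_le_iff₀ (by positivity)]
    exact le_trans (by exact_mod_cast hs) k
  have b0 := e0 ▸ f s0 (le_max_left _ _)
  have b1 := e1 ▸ f s1 (le_max_of_le_right (le_max_left _ _))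
  have b2 := e2 ▸ f s2 (le_max_of_le_right (le_max_right _ _))
  have o := (k1.pre h.geo b0 b1 b2).out k1.ok
  have key := run_sound k3 o b0 b1 b2 (k4 _ rfl o)
  rw [bil_eq] at key
  refine h.fact_loc (key.trans_eq ?_)
  simp only [locv, Dirs.loc, Loc.of, e0, e1, e2, vals, List.flatMap_cons, List.flatMap_nil,
    List.append_nil, List.cons_append, List.nil_append]

end Pool.Agent.Lib.MP_fb520c_co.Asm
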