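import Pool.Agent.Lib.MP_fb520c_co.Asm.CellB
import Pool.Agent.Lib.MP_fb520c_co.Cell.Main

/-! The form of one cell as a fact, from its certificate. -/

set_option autoImplicit false

namespace Pool.Agent.Lib.MP_fb520c_co.Asm

open Dent Chk

theorem Hyp.cell {s : Setup} {b : ℂ → ℂ} (h : Hyp s b) {be : ℕ → ℕ} (hb : Bd s.t b be) {r : ℚ}
    {s0 s1 s2 : Smp} {d : CellD} {G : Terms} (k2 : beOK be d.p.be s0 s1 s2 = true)
    (k : cellOK (dirs s.t r s0 s1 s2) 0 d G = true) :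
    Fact (xv s.t b) [(atoms [s0, s1, s2], G)] := by
  obtain ⟨h1, h2⟩ := rec_true k
  obtain ⟨h3, h4⟩ := rec_true h1
  refine h.ctx.cell hb (of_decide_eq_true h2).1 k2 h3 fun L _ o => ?_
  have e : ((imul d.cut.tc 281474976710656 : ℤ) : ℝ) / Chk.sc = d.cut.tc / 65536 := by
    rw [Chk.imul_eq, Chk.sc]; push_cast; ring
  rw [e]
  exact cut_sound h4 o

end Pool.Agent.Lib.MP_fb520c_co.Asm
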