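import Pool.Agent.Lib.MP_fb520c_co.Asm.Prim

/-! Better a priori bounds for `b` from chains of two and three hexagons. -/

set_option autoImplicit false

open Complex ComplexConjugate

namespace Pool.Agent.Lib.MP_fb520c_co.Dent

lemma ch_rho (x y : ℂ) : 1 + ‖x‖ * ‖y‖ ≤ rho x * rho y := by
  refine abs_le_of_sq_le_sq' ?_ (mul_nonneg (by linarith [one_le_rho x])
    (by linarith [one_le_rho y])) |>.2
  rw [mul_pow, rho_sq, rho_sq]
  nlinarith [sq_nonneg (‖x‖ - ‖y‖)]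

lemma ch_eq (b : ℂ → ℂ) {u : ℂ} (hu : ‖u‖ = 1) (v : ℂ) :
    b v = rho (b u) * u * relB b u v + b u * conj (relA b u v) := by
  have e1 : u * conj u = 1 := by rw [Complex.mul_conj', hu]; simp
  have e2 : ((rho (b u) : ℝ) : ℂ) ^ 2 = 1 + b u * conj (b u) := by
    rw [Complex.mul_conj']; exact_mod_cast rho_sq (b u)
  simp only [relA, relB, map_mul, map_sub, Complex.conj_conj, Complex.conj_ofReal]
  linear_combination (-(rho (b u) : ℂ) ^ 2 * b v) * e1 - b v * e2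

lemma ch_re (b : ℂ → ℂ) {u v : ℂ} {c : ℝ} (c0 : 0 ≤ c) (hc : c ≤ (conj u * v).re) :
    c - (1 - c) * (‖b u‖ * ‖b v‖) ≤ (relA b u v).re := by
  have k1 := ch_rho (b u) (b v)
  have k2 : (b u * conj (b v)).re ≤ ‖b u‖ * ‖b v‖ :=
    (Complex.re_le_norm _).trans_eq (by rw [norm_mul, Complex.norm_conj])
  have e : (relA b u v).re = rho (b u) * rho (b v) * (conj u * v).re - (b u * conj (b v)).re := by
    rw [relA, Complex.sub_re, ← Complex.ofReal_mul, Complex.re_ofReal_mul]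
  have p : 0 ≤ ‖b u‖ * ‖b v‖ := by positivity
  rw [e]
  nlinarith [mul_le_mul k1 hc c0 (by linarith)]

lemma ch_root {u : ℂ} (hu : ‖u‖ = 1) {n : ℕ} (hn : n ≠ 0) :
    ∃ φ : ℝ, |φ| ≤ Real.pi / n ∧ exp (φ * I) ^ n = u := by
  have n0 : (0 : ℝ) < n := by positivity
  refine ⟨arg u / n, ?_, ?_⟩
  · rw [abs_div, abs_of_pos n0]
    exact div_le_div_of_nonneg_right (abs_arg_le_pi u) n0.le
  · have e := norm_mul_exp_arg_mul_I u
    rw [hu, ofReal_one, one_mul] at e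
    rw [← exp_nat_mul, ← e]
    congr 1
    have : (n : ℂ) ≠ 0 := by exact_mod_cast hn
    rw [e]; push_cast; field_simp

lemma ch_pow {v : ℂ} (hv : ‖v‖ = 1) (k : ℕ) :
    ‖v ^ k‖ = 1 ∧ (conj (v ^ k) * v ^ (k + 1)).re = v.re := by
  have e : ‖v ^ k‖ = 1 := by rw [norm_pow, hv, one_pow]
  refine ⟨e, ?_⟩
  rw [pow_succ, ← mul_assoc, Complex.conj_mul', e]; simp

variable {A η : ℝ} {b : ℂ → ℂ} (hG : Geo A η b) (hη : η ≤ 2.62652)
include hG hη

/-- one step of a chain -/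
theorem Geo.step {u v : ℂ} (hu : ‖u‖ = 1) (hv : ‖v‖ = 1) {β c γ : ℝ} (h1 : ‖b u‖ ≤ β)
    (c0 : 0 ≤ c) (c1 : c ≤ 1) (hc : c ≤ (conj u * v).re)
    (hγ : 1.1548 * (1.016423 - c + (1 - c) * (β * 0.17371)) ≤ γ) :
    ‖b v‖ ≤ (1 + β ^ 2 / 2) * γ + β * (1 + γ ^ 2 / 2) := by
  have k1 := hG.ap1_rel hu hv hη
  have k2 := ch_re b c0 hc
  have k3 := mul_le_mul_of_nonneg_left (mul_le_mul h1 (hG.ap1_all hv hη) (norm_nonneg _)
    ((norm_nonneg _).trans h1)) (sub_nonneg.2 c1)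
  have k4 : ‖relB b u v‖ ≤ γ := by linarith
  have k5 : ‖relA b u v‖ ≤ 1 + γ ^ 2 / 2 := by
    refine abs_le_of_sq_le_sq' ?_ (by positivity) |>.2
    rw [nsq]
    nlinarith [pow_le_pow_left₀ (norm_nonneg _) k4 2, sq_nonneg (γ ^ 2), rel_det b hu hv]
  rw [ch_eq b hu v]
  refine (norm_add_le _ _).trans (add_le_add ?_ ?_)
  · rw [norm_mul, norm_mul, hu, mul_one, Complex.norm_real, Real.norm_eq_abs,
      abs_of_pos (by linarith [one_le_rho (b u)])]
    exact mul_le_mul (rho_le h1) k4 (norm_nonneg _) (by positivity)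
  · rw [norm_mul, Complex.norm_conj]
    exact mul_le_mul h1 k5 (norm_nonneg _) ((norm_nonneg _).trans h1)

/-- a step with linear bounds -/
lemma Geo.step' {v : ℂ} (hv : ‖v‖ = 1) (c0 : 0 ≤ v.re) (k : ℕ) {β β' γ γ' : ℝ}
    (h1 : ‖b (v ^ k)‖ ≤ β) (h2 : β ≤ β') (h3 : γ ≤ γ')
    (hγ : 1.1548 * (0.016423 + (1 - v.re) * (1 + β' * 0.17371)) = γ) :
    ‖b (v ^ (k + 1))‖ ≤ (1 + β' ^ 2 / 2) * γ + β * (1 + γ' ^ 2 / 2) := by
  have c1 : v.re ≤ 1 := (re_le_norm v).trans_eq hv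
  have b0 := (norm_nonneg _).trans h1
  have g0 : 0 ≤ γ := by
    have := mul_nonneg (sub_nonneg.2 c1) (show 0 ≤ 1 + β' * 0.17371 by linarith)
    linarith
  have k1 := mul_le_mul_of_nonneg_left h2 (sub_nonneg.2 c1)
  refine (hG.step hη (ch_pow hv k).1 (ch_pow hv (k + 1)).1 (γ := γ) h1 c0 c1 (ch_pow hv k).2.ge
    (by linarith)).trans ?_
  linarith [mul_le_mul_of_nonneg_right (pow_le_pow_left₀ b0 h2 2) g0,
    mul_le_mul_of_nonneg_left (pow_le_pow_left₀ g0 h3 2) b0]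

theorem Geo.be2 {u : ℂ} (hu : ‖u‖ = 1) (h : 0.866 ≤ u.re) :
    ‖b u‖ ≤ 0.038 + 0.5915 * (1 - u.re) := by
  obtain ⟨φ, p1, p2⟩ := ch_root hu two_ne_zero
  have c0 : 0 ≤ (exp (φ * I)).re := by
    rw [exp_ofReal_mul_I_re]
    exact Real.cos_nonneg_of_mem_Icc ⟨by simpa using (abs_le.1 p1).1, by simpa using (abs_le.1 p1).2⟩
  have hv := norm_exp_ofReal_mul_I φ
  generalize exp (φ * I) = v at *
  have q := nsq v
  rw [hv] at q
  have e : u.re = 2 * v.re ^ 2 - 1 := by rw [← p2, sq, mul_re]; linarith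
  have c1 : v.re ≤ 1 := (re_le_norm v).trans_eq hv
  have d1 : 0.9659 ≤ v.re := by nlinarith
  have d2 : 1 - v.re ≤ 0.25434 * (1 - u.re) := by nlinarith
  have k1 : ‖b (v ^ 1)‖ ≤ 1.1548 * (1.016423 - v.re) := by rw [pow_one]; exact hG.ap1 hv hη c0
  have k2 := hG.step' hη hv c0 1 (β' := 0.0584) (γ' := 0.0588) k1 (by linarith)
    (by linarith) rfl
  rw [p2] at k2
  linarith

theorem Geo.be3 {u : ℂ} (hu : ‖u‖ = 1) (h : 0.866 ≤ u.re) :
    ‖b u‖ ≤ 0.057 + 0.3962 * (1 - u.re) := by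
  obtain ⟨φ, p1, p2⟩ := ch_root hu three_ne_zero
  have c0 : 1 / 2 ≤ (exp (φ * I)).re := by
    rw [exp_ofReal_mul_I_re, ← Real.cos_abs, ← Real.cos_pi_div_three]
    exact Real.cos_le_cos_of_nonneg_of_le_pi (abs_nonneg _) (by linarith [Real.pi_pos])
      (by simpa using p1)
  have hv := norm_exp_ofReal_mul_I φ
  generalize exp (φ * I) = v at *
  have q := nsq v
  rw [hv] at q
  have e : u.re = 4 * v.re ^ 3 - 3 * v.re := by
    rw [← p2, pow_succ, sq, mul_re, mul_re, mul_im]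
    linear_combination (3 * v.re) * q
  have c1 : v.re ≤ 1 := (re_le_norm v).trans_eq hv
  have d1 : 0.9848 ≤ v.re := by
    by_contra hn
    push Not at hn
    nlinarith [mul_nonneg (sub_nonneg.2 hn.le) (sub_nonneg.2 c0),
      mul_nonneg (mul_nonneg (sub_nonneg.2 hn.le) (sub_nonneg.2 c0)) (sub_nonneg.2 c0)]
  have d2 : 1 - v.re ≤ 0.11341 * (1 - u.re) := by
    nlinarith [mul_nonneg (sub_nonneg.2 c1) (sub_nonneg.2 d1),
      mul_nonneg (sq_nonneg (1 - v.re)) (sub_nonneg.2 c1)]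
  have k1 : ‖b (v ^ 1)‖ ≤ 1.1548 * (1.016423 - v.re) := by
    rw [pow_one]; exact hG.ap1 hv hη (by linarith)
  have k2 := hG.step' hη hv (by linarith) 1 (β' := 0.0366) (γ' := 0.0367) k1
    (by linarith) (by linarith) rfl
  have k3 := hG.step' hη hv (by linarith) 2 (β' := 0.0732) (γ' := 0.0368) k2 (by linarith)
    (by linarith) rfl
  rw [p2] at k3
  linarith

/-- both chain bounds near either end of the arc -/
theorem Geo.be23 {u : ℂ} (hu : ‖u‖ = 1) {c : ℝ} (h : 0.866 ≤ c)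
    (hc : c = u.re ∨ c = (conj om * u).re) :
    ‖b u‖ ≤ 0.038 + 0.5915 * (1 - c) ∧ ‖b u‖ ≤ 0.057 + 0.3962 * (1 - c) := by
  rcases hc with rfl | rfl
  · exact ⟨hG.be2 hη hu h, hG.be3 hη hu h⟩
  · have k2 := hG.be2 hη (conj_rot hu).1 h
    have k3 := hG.be3 hη (conj_rot hu).1 h
    rw [← hG.norm_rot (conj_rot hu).1, (conj_rot hu).2] at k2 k3
    exact ⟨k2, k3⟩

end Pool.Agent.Lib.MP_fb520c_co.Dent

namespace Pool.Agent.Lib.MP_fb520c_co.Asm

open Dent

/-- `2 ^ 32 (a - s c / D) / 10000`, rounded up -/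
def bln (a s c D : ℤ) : ℕ := ((a * D - s * c) * 2 ^ 32 / (10000 * D) + 1).toNat

lemma le_bln (a s c : ℤ) {D : ℤ} (D0 : 0 < D) :
    (a - s * (c / D) : ℝ) / 10000 ≤ bln a s c D / 2 ^ 32 := by
  have d0 : (0 : ℝ) < D := by exact_mod_cast D0
  have D1 : 0 < 10000 * D := by linarith
  unfold bln
  generalize hn : (a * D - s * c) * 2 ^ 32 = n
  have k2 : n ≤ (n / (10000 * D) + 1).toNat * (10000 * D) :=
    (Int.lt_ediv_add_one_mul_self n D1).le.trans
      (mul_le_mul_of_nonneg_right (Int.self_le_toNat _) D1.le)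
  generalize (n / (10000 * D) + 1).toNat = k at *
  have k3 : ((a : ℝ) * D - s * c) * 2 ^ 32 ≤ k * (10000 * D) := by exact_mod_cast hn ▸ k2
  rw [div_le_div_iff₀ (by norm_num) (by norm_num)]
  refine le_of_mul_le_mul_right ?_ d0
  have e : (c : ℝ) / D * D = c := div_mul_cancel₀ _ d0.ne'
  linear_combination k3 - s * 2 ^ 32 * e

/-- the a priori bounds improved by chains, in units `2 ^ (-32)` -/
def bch (t : Tab) (m : ℕ) : ℕ :=
  let c := max (2 * t.p m) (t.p m + 3 * t.q m)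
  bif decide (866 * (2 * t.d m) ≤ 1000 * c) then
    min (bap t m) (min (bln 6295 5915 c (2 * t.d m)) (bln 4532 3962 c (2 * t.d m))) else bap t m

theorem Ctx.bd_bch {t : Tab} {A η : ℝ} {b : ℂ → ℂ} (h : Ctx t A η b) : Bd t b (bch t) := by
  intro m
  have k0 := h.bd_bap m
  have D0 : 0 < 2 * t.d m := by linarith [t.d_pos h.S0 m]
  have d0 : (0 : ℝ) < t.d m := by exact_mod_cast t.d_pos h.S0 m
  unfold bch
  simp only
  generalize hc : max (2 * t.p m) (t.p m + 3 * t.q m) = c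
  cases e : decide (866 * (2 * t.d m) ≤ 1000 * c) with
  | false => exact k0
  | true =>
    have c0 : (866 : ℝ) * (2 * t.d m) ≤ 1000 * c := by exact_mod_cast of_decide_eq_true e
    have k1 := h.geo.be23 h.eta (h.un m) (c := c / (2 * t.d m))
      (by rw [le_div_iff₀ (by positivity)]; linarith) (by
        rcases max_choice (2 * t.p m) (t.p m + 3 * t.q m) with k | k
        · left; rw [← hc, k]; simp only [Tab.u]; push_cast; field_simp
        · right
          rw [← hc, k]; simp only [Tab.u, om, mul_re, conj_re, conj_im]; push_cast; field_simp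
          linear_combination (-t.q m : ℝ) * s3)
    have k2 := le_bln 6295 5915 c D0
    have k3 := le_bln 4532 3962 c D0
    push_cast at k2 k3
    rw [cond_true]
    rcases min_choice (bap t m) (min (bln 6295 5915 c (2 * t.d m))
      (bln 4532 3962 c (2 * t.d m))) with k | k <;> rw [k]
    · exact k0
    rcases min_choice (bln 6295 5915 c (2 * t.d m)) (bln 4532 3962 c (2 * t.d m)) with k | k <;>
      rw [k]
    · linarith [k1.1]
    · linarith [k1.2]

end Pool.Agent.Lib.MP_fb520c_co.Asm
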