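import Pool.Agent.Lib.MP_fb520c_co.Asm.Lang

/-! Dense matrices and the rounding of a quadratic form to a smaller scale. -/

set_option autoImplicit false

namespace Pool.Agent.Lib.MP_fb520c_co.Asm

/-- the sum of two lists, the shorter one padded by zeros -/
def addv : List ℤ → List ℤ → List ℤ
  | a :: u, b :: w => (a + b) :: addv u w
  | [], w => w
  | u, [] => u

lemma dot_addv (u w : List ℤ) (v : List ℝ) : dot (addv u w) v = dot u v + dot w v := by
  induction u generalizing w v with
  | nil => simp [addv]
  | cons a u ih => cases w with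
    | nil => simp [addv]
    | cons b w => cases v with
      | nil => simp
      | cons c v => simp [addv, ih]; ring

/-- the bilinear form of a matrix -/
noncomputable def mval : List ℝ → List ℝ → List (List ℤ) → ℝ
  | a :: v', v, r :: M => a * dot r v + mval v' v M
  | _, _, _ => 0

@[simp] lemma mval_nil (v' v : List ℝ) : mval v' v [] = 0 := by cases v' <;> rfl
@[simp] lemma mval_nil' (v : List ℝ) (M : List (List ℤ)) : mval [] v M = 0 := by cases M <;> rfl
@[simp] lemma mval_cons (a : ℝ) (v' v : List ℝ) (r : List ℤ) (M : List (List ℤ)) :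
    mval (a :: v') v (r :: M) = a * dot r v + mval v' v M := rfl

/-- the sum of two matrices -/
def madd : List (List ℤ) → List (List ℤ) → List (List ℤ)
  | a :: u, b :: w => addv a b :: madd u w
  | [], w => w
  | u, [] => u

lemma mval_madd (v' v : List ℝ) (M M' : List (List ℤ)) :
    mval v' v (madd M M') = mval v' v M + mval v' v M' := by
  induction M generalizing M' v' with
  | nil => simp [madd]
  | cons a u ih => cases M' with
    | nil => simp [madd]
    | cons b w => cases v' with
      | nil => simp
      | cons c v' => simp [madd, ih, dot_addv]; ring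

lemma mval_outer (v' v : List ℝ) (u w : List ℤ) :
    mval v' v (u.map fun c => w.map (c * ·)) = dot u v' * dot w v := by
  induction u generalizing v' with
  | nil => simp
  | cons a u ih => cases v' with
    | nil => simp
    | cons c v' => simp [ih, dot_map_mul]; ring

/-- the matrix of a sum of products -/
def dense : Terms → List (List ℤ)
  | [] => []
  | t :: T => madd (t.1.map fun c => t.2.map (c * ·)) (dense T)

lemma mval_dense (v : List ℝ) (T : Terms) : mval v v (dense T) = tval v T := by
  induction T with
  | nil => simp [dense]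
  | cons t T ih => rw [dense, mval_madd, mval_outer, ih, tval_cons]

/-- the rows of a matrix as a sum of products -/
def toTerms : List ℤ → List (List ℤ) → Terms
  | _, [] => []
  | e, r :: M => (e, r) :: toTerms (0 :: e) M

lemma dot_unit (k : ℕ) (v : List ℝ) : dot (List.replicate k 0 ++ [1]) v = (v.drop k).headD 0 := by
  induction k generalizing v with
  | zero => cases v <;> simp
  | succ k ih => cases v with
    | nil => simp
    | cons a v => simp [List.replicate_succ, ih]

lemma tval_toTerms' (v : List ℝ) (M : List (List ℤ)) (k : ℕ) :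
    tval v (toTerms (List.replicate k 0 ++ [1]) M) = mval (v.drop k) v M := by
  induction M generalizing k with
  | nil => simp [toTerms]
  | cons r M ih =>
    have := ih (k + 1)
    rw [List.replicate_succ, List.cons_append] at this
    rw [toTerms, tval_cons, this, dot_unit, ← List.tail_drop]
    cases v.drop k <;> simp

lemma tval_toTerms (v : List ℝ) (M : List (List ℤ)) : tval v (toTerms [1] M) = mval v v M :=
  tval_toTerms' v M 0

lemma dot_div {σ : ℤ} (hσ : 0 < σ) (r : List ℤ) (v : List ℝ) (hv : ∀ a ∈ v, |a| ≤ 1) :
    |dot r v - σ * dot (r.map (· / σ)) v| ≤ σ * r.length := by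
  have s0 : (0 : ℝ) < σ := by exact_mod_cast hσ
  induction r generalizing v with
  | nil => simp
  | cons c r ih => cases v with
    | nil => simp; positivity
    | cons a v =>
      have h1 := ih v fun b hb => hv b (List.mem_cons_of_mem _ hb)
      have h2 := hv a List.mem_cons_self
      have e : (c : ℝ) = σ * (c / σ : ℤ) + (c % σ : ℤ) := by
        exact_mod_cast (Int.mul_ediv_add_emod c σ).symm
      have m0 : (0 : ℝ) ≤ (c % σ : ℤ) := by exact_mod_cast Int.emod_nonneg c hσ.ne'
      have m1 : ((c % σ : ℤ) : ℝ) ≤ σ := by exact_mod_cast (Int.emod_lt_of_pos c hσ).le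
      have h3 : |((c % σ : ℤ) : ℝ) * a| ≤ σ := by
        rw [abs_mul, abs_of_nonneg m0]
        exact (mul_le_of_le_one_right m0 h2).trans m1
      simp only [List.map_cons, dot_cons, List.length_cons]
      push_cast
      have : (c : ℝ) * a + dot r v - σ * ((c / σ : ℤ) * a + dot (r.map (· / σ)) v) =
          (c % σ : ℤ) * a + (dot r v - σ * dot (r.map (· / σ)) v) := by
        linear_combination a * e
      rw [this]
      linarith [abs_add_le (((c % σ : ℤ) : ℝ) * a) (dot r v - σ * dot (r.map (· / σ)) v)]

lemma mval_div {σ : ℤ} (hσ : 0 < σ) (M : List (List ℤ)) (v' v : List ℝ) (hv' : ∀ a ∈ v', |a| ≤ 1)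
    (hv : ∀ a ∈ v, |a| ≤ 1) : mval v' v M ≤ σ * (mval v' v (M.map fun r => r.map (· / σ)) +
      ((M.map List.length).sum : ℕ)) := by
  have s0 : (0 : ℝ) < σ := by exact_mod_cast hσ
  induction M generalizing v' with
  | nil => simp
  | cons r M ih => cases v' with
    | nil => simp only [mval_nil', zero_add]; positivity
    | cons a v' =>
      have h1 := ih v' fun b hb => hv' b (List.mem_cons_of_mem _ hb)
      have h2 := dot_div hσ r v hv
      have h3 : |a * (dot r v - σ * dot (r.map (· / σ)) v)| ≤ σ * r.length := by
        rw [abs_mul]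
        exact (mul_le_of_le_one_left (abs_nonneg _) (hv' a List.mem_cons_self)).trans h2
      simp only [List.map_cons, mval_cons, List.sum_cons]
      push_cast at h1 ⊢
      linarith [le_abs_self (a * (dot r v - σ * dot (r.map (· / σ)) v))]

/-- the form divided by `σ`, rounded, with the rounding paid by the constant -/
def shrink (σ : ℤ) (T : Terms) : Terms :=
  ([(((dense T).map List.length).sum : ℕ)], [1]) ::
    toTerms [1] ((dense T).map fun r => r.map (· / σ))

theorem shrink_nonneg {σ : ℤ} (hσ : 0 < σ) {T : Terms} {v : List ℝ} (hv : ∀ a ∈ v, |a| ≤ 1)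
    (h : 0 ≤ tval (1 :: v) T) : 0 ≤ tval (1 :: v) (shrink σ T) := by
  have s0 : (0 : ℝ) < σ := by exact_mod_cast hσ
  have hv' : ∀ a ∈ (1 : ℝ) :: v, |a| ≤ 1 := by
    intro a ha
    rcases List.mem_cons.1 ha with rfl | ha
    · simp
    · exact hv a ha
  have := mval_div hσ (dense T) _ _ hv' hv'
  rw [mval_dense] at this
  rw [shrink, tval_cons, tval_toTerms]
  have k := nonneg_of_mul_nonneg_right (h.trans this) s0
  simp only [dot_cons, dot_nil_left, Int.cast_natCast, Int.cast_one] at k ⊢
  linarith

end Pool.Agent.Lib.MP_fb520c_co.Asm
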