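import Pool.Agent.Lib.MP_fb520c_co.Asm.Rules
import Pool.Agent.Lib.MP_fb520c_co.Dent.Geo
import Pool.Agent.Lib.MP_fb520c_co.Dent.Glue

/-! A certificate gives an empty quadrant. -/

set_option autoImplicit false

namespace Pool.Agent.Lib.MP_fb520c_co.Asm

open Dent

theorem empty_of (s : Setup) (hs : s.ok = true) (H : ∀ b, Hyp s b → False) :
    Empty2 (s.An / (2 * s.Ad)) (s.An * s.ed / (s.Ad * s.en)) := by
  intro C h1 h2 hδ hθ
  have k := hs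
  simp only [Setup.ok, Bool.and_eq_true, Nat.ble_eq, Nat.beq_eq] at k
  obtain ⟨⟨⟨⟨⟨⟨⟨k1, k2⟩, k3⟩, k4⟩, k5⟩, k6⟩, k7⟩, -⟩ := k
  have a1 : (0 : ℝ) < s.An := by exact_mod_cast k3
  have a2 : (0 : ℝ) < s.Ad := by exact_mod_cast k4
  have a3 : (0 : ℝ) < s.en := by exact_mod_cast k5
  have a4 : (0 : ℝ) < s.ed := by exact_mod_cast k6
  have a5 : 17320509 * (s.en : ℝ) ≤ 26265200 * s.ed := by exact_mod_cast k7
  have e1 : 2 * √3 * ((s.An : ℝ) / (2 * s.Ad)) = √3 * (s.An / s.Ad) := by field_simp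
  have e2 : 2 * √3 * ((s.An : ℝ) / (2 * s.Ad)) / (s.An * s.ed / (s.Ad * s.en)) =
      √3 * (s.en / s.ed) := by field_simp
  have e3 : √3 * ((s.en : ℝ) / s.ed) ≤ 2.62652 := by
    rw [← mul_div_assoc, div_le_iff₀ a4]
    have := mul_le_mul_of_nonneg_right s3_hi a3.le
    norm_num at this ⊢
    linarith
  obtain ⟨b, g, p⟩ := geo h1 h2 (by positivity) hδ hθ (e2.trans_le e3) (phU s.t s.ph) (phC s.ph)
    (phU_norm k1 s.ph)
  rw [e2, e1] at g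
  exact H b ⟨hs, ⟨g, e3, k1, k2⟩, p⟩

end Pool.Agent.Lib.MP_fb520c_co.Asm
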