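import Pool.Agent.Lib.MP_fb520c_co.Asm.Prim
import Pool.Agent.Lib.MP_fb520c_co.Dent.Glow

/-! The hexagon constraint as an integer quadratic form. -/

set_option autoImplicit false

open Complex ComplexConjugate

namespace Pool.Agent.Lib.MP_fb520c_co.Asm

open Dent

theorem glow_le3 {be rb lm n0 cm : Fin 3 → ℝ} {n u b : Fin 3 → ℂ}
    (rb1 : ∀ i, 1 + be i ^ 2 / 2 ≤ rb i) (un : ∀ i, ‖u i‖ = 1)
    (nn : ∀ i, n0 i ^ 2 + ‖n i‖ ^ 2 ≤ 1) (lo : ∀ i, lm i + ‖n i‖ * be i ≤ n0 i)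
    (c01 : 0 ≤ cr (u 0) (u 1)) (c12 : 0 ≤ cr (u 1) (u 2)) (c02 : 0 ≤ cr (u 0) (u 2))
    (cm0 : ∀ i, 0 ≤ cm i) (m0 : cm 0 + (be 1 + be 2) ≤ cr (u 0) (u 1) + cr (u 0) (u 2))
    (m1 : cm 1 + (be 0 + be 2) ≤ lm 0 * cr (u 0) (u 1) + cr (u 1) (u 2))
    (m2 : cm 2 + (be 0 + be 1) ≤ lm 0 * cr (u 0) (u 2) + lm 1 * cr (u 1) (u 2))
    (hb : ∀ i, ‖b i‖ ≤ be i) :
    hex (plow (n0 0) (n 0) (u 0) (b 0)) (plow (n0 1) (n 1) (u 1) (b 1))
      (plow (n0 2) (n 2) (u 2) (b 2)) +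
    (cm 0 * gap (rb 0) (n0 0) (n 0) (b 0) + cm 1 * gap (rb 1) (n0 1) (n 1) (b 1) +
      cm 2 * gap (rb 2) (n0 2) (n 2) (b 2)) ≤ hex (rho (b 0) * u 0 + b 0) (rho (b 1) * u 1 + b 1)
      (rho (b 2) * u 2 + b 2) := by
  have g := fun i => gap_le (nn i) (rho_le' (hb i) (rb1 i))
  have g0 := fun i => rlow_le (nn i) (b i)
  have r := fun i => one_le_rho' (b i)
  have l : ∀ i, lm i ≤ rlow (n0 i) (n i) (b i) := fun i => by
    have k := abs_le.1 (abs_re_conj_mul (n i) (b i))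
    have k1 := mul_le_mul_of_nonneg_left (hb i) (norm_nonneg (n i))
    rw [rlow]
    linarith [lo i]
  have c : ∀ i j, |cr (u i) (b j)| ≤ be j := fun i j =>
    (abs_cr_le _ _).trans (by rw [un, one_mul]; exact hb j)
  have e : hex (rho (b 0) * u 0 + b 0) (rho (b 1) * u 1 + b 1) (rho (b 2) * u 2 + b 2) =
      hex (plow (n0 0) (n 0) (u 0) (b 0)) (plow (n0 1) (n 1) (u 1) (b 1))
        (plow (n0 2) (n 2) (u 2) (b 2)) +
      ((rho (b 0) - rlow (n0 0) (n 0) (b 0)) * (rho (b 1) * cr (u 0) (u 1) +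
        rho (b 2) * cr (u 0) (u 2) + cr (u 0) (b 1) + cr (u 0) (b 2)) +
      (rho (b 1) - rlow (n0 1) (n 1) (b 1)) * (rlow (n0 0) (n 0) (b 0) * cr (u 0) (u 1) +
        rho (b 2) * cr (u 1) (u 2) - cr (u 1) (b 0) + cr (u 1) (b 2)) +
      (rho (b 2) - rlow (n0 2) (n 2) (b 2)) * (rlow (n0 0) (n 0) (b 0) * cr (u 0) (u 2) +
        rlow (n0 1) (n 1) (b 1) * cr (u 1) (u 2) - cr (u 2) (b 0) - cr (u 2) (b 1))) := by
    simp only [hex, cr, plow, add_re, add_im, mul_re, mul_im, ofReal_re, ofReal_im]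
    ring
  have k : ∀ {i : Fin 3} {t : ℝ}, cm i ≤ t →
      cm i * gap (rb i) (n0 i) (n i) (b i) ≤ (rho (b i) - rlow (n0 i) (n i) (b i)) * t := by
    intro i t ht
    rw [mul_comm]
    exact mul_le_mul (g i) ht (cm0 i) (by linarith [g0 i])
  have a01 := abs_le.1 (c 0 1)
  have a02 := abs_le.1 (c 0 2)
  have a10 := abs_le.1 (c 1 0)
  have a12 := abs_le.1 (c 1 2)
  have a20 := abs_le.1 (c 2 0)
  have a21 := abs_le.1 (c 2 1)
  rw [e]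
  refine add_le_add le_rfl (add_le_add (add_le_add (k ?_) (k ?_)) (k ?_))
  · linarith [mul_le_mul_of_nonneg_right (r 1) c01, mul_le_mul_of_nonneg_right (r 2) c02]
  · linarith [mul_le_mul_of_nonneg_right (l 0) c01, mul_le_mul_of_nonneg_right (r 2) c12]
  · linarith [mul_le_mul_of_nonneg_right (l 0) c02, mul_le_mul_of_nonneg_right (l 1) c12]

/-- a vertex: the sample, the minorant of `rho`, the weight of the gap and the bounds `be`, `rb`,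
`lm` (units `2 ^ (-32)`) -/
structure GV where
  s : Smp
  n0 : ℤ
  nx : ℤ
  ny : ℤ
  g : ℕ
  be : ℕ
  rb : ℕ
  lm : ℕ

/-- three vertices -/
structure GD where
  v0 : GV
  v1 : GV
  v2 : GV

/-- a form in `1` and the coordinates of the `k`-th vertex -/
def vk : ℕ → ℤ → ℤ → ℤ → List ℤ
  | 0, a, b, c => [a, b, c]
  | 1, a, b, c => [a, 0, 0, b, c]
  | _, a, b, c => [a, 0, 0, 0, 0, b, c]

/-- first coordinate of the vertex, times `c` -/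
def GV.px (t : Tab) (v : GV) (k : ℕ) (c : ℤ) : List ℤ :=
  vk k (c * (t.sp v.s * v.n0)) (c * (t.sp v.s * v.nx + 2 ^ 32 * t.sd v.s))
    (c * (3 * (t.sp v.s * v.ny)))

/-- second coordinate of the vertex, times `c` -/
def GV.py (t : Tab) (v : GV) (k : ℕ) (c : ℤ) : List ℤ :=
  vk k (c * (t.sq v.s * v.n0)) (c * (t.sq v.s * v.nx))
    (c * (3 * (t.sq v.s * v.ny) + 2 ^ 32 * t.sd v.s))

/-- minus `c` times the gap -/
def GV.gp (v : GV) (k : ℕ) (c : ℤ) : Terms :=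
  [([-(c * 2 ^ 64)], [1]), (vk k 0 (-(c * 2 ^ 64)) 0, vk k 0 1 0),
    (vk k 0 0 (-(3 * (c * 2 ^ 64))), vk k 0 0 1),
    (vk k (c * v.n0) (c * v.nx) (c * (3 * v.ny)), vk k v.n0 v.nx (3 * v.ny))]

/-- minus `c` times the determinant of two vertices -/
def crT (t : Tab) (v w : GV) (k l : ℕ) (c : ℤ) : Terms :=
  [(v.px t k (-c), w.py t l 1), (v.py t k c, w.px t l 1)]

/-- the product of the three denominators -/
def GD.d3 (t : Tab) (d : GD) : ℤ := t.sd d.v0.s * t.sd d.v1.s * t.sd d.v2.s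

/-- the exact form -/
def glowT (t : Tab) (en ed : ℕ) (d : GD) : Terms :=
  ([en * (2 ^ 96 * d.d3 t)], [1]) ::
    (crT t d.v0 d.v1 0 1 (ed * (2 ^ 32 * t.sd d.v2.s)) ++
    (crT t d.v1 d.v2 1 2 (ed * (2 ^ 32 * t.sd d.v0.s)) ++
    (crT t d.v0 d.v2 0 2 (ed * (2 ^ 32 * t.sd d.v1.s)) ++
    (d.v0.gp 0 (ed * (d.d3 t * d.v0.g)) ++ (d.v1.gp 1 (ed * (d.d3 t * d.v1.g)) ++
      d.v2.gp 2 (ed * (d.d3 t * d.v2.g)))))))

/-- the rounded form, in units of `2 ^ (-80)` -/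
def glowS (t : Tab) (en ed : ℕ) (d : GD) : Terms := shrink (ed * (d.d3 t * 2 ^ 16)) (glowT t en ed d)

/-- the side conditions of one vertex; `σ / (2 ^ 32 D)` is the weighted sum of the two
determinants, `B` the sum of the two other bounds -/
def GV.ok (be : ℕ → ℕ) (B : ℕ) (D σ : ℤ) (v : GV) : Bool :=
  Nat.ble (be v.s.2) v.be && Nat.ble (2 ^ 65 + v.be * v.be) (v.rb * 2 ^ 33) &&
    decide (v.n0 * v.n0 + (v.nx * v.nx + 3 * (v.ny * v.ny)) ≤ 2 ^ 64) &&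
    decide ((v.lm : ℤ) ≤ v.n0) &&
    decide ((v.nx * v.nx + 3 * (v.ny * v.ny)) * (v.be * v.be) ≤
      (v.n0 - v.lm) * (v.n0 - v.lm) * 2 ^ 64) &&
    decide (1000 * (B * (2 ^ 32 * D)) ≤ 1732 * (2 ^ 32 * σ - 2 * (v.rb * (v.g * D))))

/-- the side conditions -/
def glowOK (t : Tab) (be : ℕ → ℕ) (d : GD) : Bool :=
  decide (0 ≤ t.sg d.v0.s d.v1.s) && decide (0 ≤ t.sg d.v1.s d.v2.s) &&
    decide (0 ≤ t.sg d.v0.s d.v2.s) &&
    d.v0.ok be (d.v1.be + d.v2.be) (d.d3 t)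
      (2 ^ 32 * (t.sg d.v0.s d.v1.s * t.sd d.v2.s) + 2 ^ 32 * (t.sg d.v0.s d.v2.s * t.sd d.v1.s)) &&
    d.v1.ok be (d.v0.be + d.v2.be) (d.d3 t)
      (d.v0.lm * (t.sg d.v0.s d.v1.s * t.sd d.v2.s) + 2 ^ 32 * (t.sg d.v1.s d.v2.s * t.sd d.v0.s)) &&
    d.v2.ok be (d.v0.be + d.v1.be) (d.d3 t)
      (d.v0.lm * (t.sg d.v0.s d.v2.s * t.sd d.v1.s) + d.v1.lm * (t.sg d.v1.s d.v2.s * t.sd d.v0.s))

/-- the linear part of the minorant of `rho` -/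
noncomputable def GV.n (v : GV) : ℂ := ⟨v.nx / 2 ^ 32, v.ny / 2 ^ 32 * √3⟩

lemma GV.n_sq (v : GV) : ‖v.n‖ ^ 2 = (v.nx * v.nx + 3 * (v.ny * v.ny)) / 2 ^ 64 := by
  rw [nsq, GV.n]; linear_combination ((v.ny : ℝ) ^ 2 / 2 ^ 64) * s3

lemma GV.spec {be : ℕ → ℕ} {B : ℕ} {D σ : ℤ} {v : GV} (D0 : 0 < D)
    (k : v.ok be B D σ = true) : (be v.s.2 : ℝ) ≤ v.be ∧
    1 + ((v.be : ℝ) / 2 ^ 32) ^ 2 / 2 ≤ v.rb / 2 ^ 32 ∧
    ((v.n0 : ℝ) / 2 ^ 32) ^ 2 + ‖v.n‖ ^ 2 ≤ 1 ∧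
    (v.lm : ℝ) / 2 ^ 32 + ‖v.n‖ * (v.be / 2 ^ 32) ≤ v.n0 / 2 ^ 32 ∧
    √3 * (2 * (v.rb / 2 ^ 32) * (v.g / 2 ^ 32)) + (B : ℝ) / 2 ^ 32 ≤ √3 * (σ / D) / 2 ^ 32 := by
  simp only [GV.ok, Bool.and_eq_true, decide_eq_true_eq, Nat.ble_eq] at k
  obtain ⟨⟨⟨⟨⟨k1, k0⟩, k2⟩, k3⟩, k4⟩, k5⟩ := k
  have c0 : (2 : ℝ) ^ 65 + v.be * v.be ≤ v.rb * 2 ^ 33 := by exact_mod_cast k0
  have c2 : (v.n0 : ℝ) * v.n0 + (v.nx * v.nx + 3 * (v.ny * v.ny)) ≤ 2 ^ 64 := by exact_mod_cast k2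
  have c3 : (v.lm : ℝ) ≤ v.n0 := by exact_mod_cast k3
  have c4 : ((v.nx : ℝ) * v.nx + 3 * (v.ny * v.ny)) * (v.be * v.be) ≤
      (v.n0 - v.lm) * (v.n0 - v.lm) * 2 ^ 64 := by exact_mod_cast k4
  have c5 : 1000 * (B * (2 ^ 32 * (D : ℝ))) ≤ 1732 * (2 ^ 32 * σ - 2 * (v.rb * (v.g * D))) := by
    exact_mod_cast k5
  have d0 : (0 : ℝ) < D := by exact_mod_cast D0
  refine ⟨by exact_mod_cast k1, by linarith, by rw [v.n_sq]; linarith, ?_, ?_⟩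
  · have : ‖v.n‖ * v.be ≤ v.n0 - v.lm :=
      (abs_le_of_sq_le_sq' (by rw [mul_pow, v.n_sq]; linarith) (by linarith)).2
    linarith
  · have e : (σ : ℝ) = σ / D * D := by field_simp
    generalize (σ : ℝ) / D = s at *
    rw [e] at c5
    have c6 : 1000 * (B * 2 ^ 32 : ℝ) ≤ 1732 * (2 ^ 32 * s - 2 * (v.rb * v.g)) :=
      le_of_mul_le_mul_right (by linarith) d0
    have c7 : (0 : ℝ) ≤ 2 ^ 32 * s - 2 * (v.rb * v.g) := by
      have : (0 : ℝ) ≤ B := Nat.cast_nonneg _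
      linarith
    have := mul_le_mul_of_nonneg_right s3_lo c7
    norm_num at this ⊢
    linarith

lemma plow_co {t : Tab} (h : 0 < t.S) (v : GV) (z : ℂ) :
    (plow (v.n0 / 2 ^ 32) v.n (t.su v.s) z).re * (2 ^ 32 * t.sd v.s) =
      t.sp v.s * v.n0 + (t.sp v.s * v.nx + 2 ^ 32 * t.sd v.s) * z.re +
        3 * (t.sp v.s * v.ny) * (z.im / √3) ∧
    (plow (v.n0 / 2 ^ 32) v.n (t.su v.s) z).im / √3 * (2 ^ 32 * t.sd v.s) =
      t.sq v.s * v.n0 + t.sq v.s * v.nx * z.re +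
        (3 * (t.sq v.s * v.ny) + 2 ^ 32 * t.sd v.s) * (z.im / √3) ∧
    rlow (v.n0 / 2 ^ 32) v.n z * 2 ^ 32 = v.n0 + v.nx * z.re + 3 * v.ny * (z.im / √3) := by
  have d0 : (t.sd v.s : ℝ) ≠ 0 := by exact_mod_cast (t.sd_pos h v.s).ne'
  have e : rlow (v.n0 / 2 ^ 32) v.n z * 2 ^ 32 = v.n0 + v.nx * z.re + 3 * v.ny * (z.im / √3) := by
    simp only [rlow, GV.n, mul_re, conj_re, conj_im]
    field_simp
    linear_combination ((v.ny : ℝ) * z.im) * s3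
  rw [plow, t.su_eq h]
  generalize rlow (v.n0 / 2 ^ 32) v.n z = l at *
  simp only [add_re, add_im, mul_re, mul_im, ofReal_re, ofReal_im]
  refine ⟨?_, ?_, e⟩
  · field_simp
    field_simp at e
    linear_combination (t.sp v.s : ℝ) * e
  · field_simp
    field_simp at e
    linear_combination (t.sq v.s : ℝ) * e

theorem Ctx.glow {t : Tab} {A η : ℝ} {b : ℂ → ℂ} (h : Ctx t A η b) {be : ℕ → ℕ} (hb : Bd t b be)
    {en ed : ℕ} (hη : η * ed ≤ √3 * en) (e0 : Nat.ble 1 ed = true) (d : GD)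
    (k : glowOK t be d = true) :
    Fact (xv t b) [(atoms [d.v0.s, d.v1.s, d.v2.s], glowS t en ed d)] := by
  simp only [glowOK, Bool.and_eq_true, decide_eq_true_eq, Nat.ble_eq] at k e0
  obtain ⟨⟨⟨⟨⟨k3, k4⟩, k5⟩, k6⟩, k7⟩, k8⟩ := k
  have p0 := t.sd_pos h.S0 d.v0.s
  have p1 := t.sd_pos h.S0 d.v1.s
  have p2 := t.sd_pos h.S0 d.v2.s
  have D0 : 0 < d.d3 t := by unfold GD.d3; positivity
  have q0 : (0 : ℝ) < t.sd d.v0.s := by exact_mod_cast p0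
  have q1 : (0 : ℝ) < t.sd d.v1.s := by exact_mod_cast p1
  have q2 : (0 : ℝ) < t.sd d.v2.s := by exact_mod_cast p2
  have E0 : (0 : ℝ) < ed := by exact_mod_cast e0
  obtain ⟨a0, r0, b0, c0, m0⟩ := GV.spec D0 k6
  obtain ⟨a1, r1, b1, c1, m1⟩ := GV.spec D0 k7
  obtain ⟨a2, r2, b2, c2, m2⟩ := GV.spec D0 k8
  have pos : ∀ s s', 0 ≤ t.sg s s' → 0 ≤ cr (t.su s) (t.su s') := fun s s' k => by
    have : (0 : ℝ) ≤ t.sg s s' := by exact_mod_cast k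
    have := t.sd_pos h.S0 s
    have := t.sd_pos h.S0 s'
    rw [t.cr_su h.S0]; positivity
  have key := (glow_le3 (be := ![d.v0.be / 2 ^ 32, d.v1.be / 2 ^ 32, d.v2.be / 2 ^ 32])
    (rb := ![d.v0.rb / 2 ^ 32, d.v1.rb / 2 ^ 32, d.v2.rb / 2 ^ 32])
    (lm := ![d.v0.lm / 2 ^ 32, d.v1.lm / 2 ^ 32, d.v2.lm / 2 ^ 32])
    (n0 := ![d.v0.n0 / 2 ^ 32, d.v1.n0 / 2 ^ 32, d.v2.n0 / 2 ^ 32])
    (cm := ![√3 * (2 * (d.v0.rb / 2 ^ 32) * (d.v0.g / 2 ^ 32)),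
      √3 * (2 * (d.v1.rb / 2 ^ 32) * (d.v1.g / 2 ^ 32)),
      √3 * (2 * (d.v2.rb / 2 ^ 32) * (d.v2.g / 2 ^ 32))]) (n := ![d.v0.n, d.v1.n, d.v2.n])
    (u := ![t.su d.v0.s, t.su d.v1.s, t.su d.v2.s])
    (b := ![b (t.su d.v0.s), b (t.su d.v1.s), b (t.su d.v2.s)])
    (fun i => by fin_cases i <;> assumption) (fun i => by fin_cases i <;> exact h.sun _)
    (fun i => by fin_cases i <;> assumption) (fun i => by fin_cases i <;> assumption)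
    (pos _ _ k3) (pos _ _ k4) (pos _ _ k5)
    (fun i => by
      fin_cases i <;> simp only [Fin.zero_eta, Fin.mk_one, Fin.reduceFinMk, Matrix.cons_val] <;>
        positivity)
    (by
      simp only [Matrix.cons_val, t.cr_su h.S0]
      rw [Nat.cast_add, add_div] at m0
      refine m0.trans_eq ?_
      rw [GD.d3]; push_cast; field_simp; ring)
    (by
      simp only [Matrix.cons_val, t.cr_su h.S0]
      rw [Nat.cast_add, add_div] at m1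
      refine m1.trans_eq ?_
      rw [GD.d3]; push_cast; field_simp; ring)
    (by
      simp only [Matrix.cons_val, t.cr_su h.S0]
      rw [Nat.cast_add, add_div] at m2
      refine m2.trans_eq ?_
      rw [GD.d3]; push_cast; field_simp)
    (fun i => by
      fin_cases i <;>
        simp only [Fin.zero_eta, Fin.mk_one, Fin.reduceFinMk, Matrix.cons_val, h.nsu] <;>
        exact (hb _).trans (by gcongr))).trans
    (h.geo.hexle _ _ _ (h.sun d.v0.s) (h.sun d.v1.s) (h.sun d.v2.s))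
  clear k3 k4 k5 k6 k7 k8 m0 m1 m2 c0 c1 c2 b0 b1 b2 a0 a1 a2 pos
  refine h.fact_loc (shrink_nonneg (by positivity) (h.vals_le _) ?_)
  simp only [hex, gap, Matrix.cons_val, cr3, nsq3] at key
  obtain ⟨x0, y0, l0⟩ := plow_co h.S0 d.v0 (b (t.su d.v0.s))
  obtain ⟨x1, y1, l1⟩ := plow_co h.S0 d.v1 (b (t.su d.v1.s))
  obtain ⟨x2, y2, l2⟩ := plow_co h.S0 d.v2 (b (t.su d.v2.s))
  simp only [glowT, crT, GV.gp, GV.px, GV.py, vk, vals, GD.d3, List.flatMap_cons, List.flatMap_nil,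
    List.append_nil, List.cons_append, List.nil_append, tval_cons, tval_nil, dot_cons, dot_nil_left]
  push_cast
  generalize plow (d.v0.n0 / 2 ^ 32) d.v0.n (t.su d.v0.s) (b (t.su d.v0.s)) = P0 at *
  generalize plow (d.v1.n0 / 2 ^ 32) d.v1.n (t.su d.v1.s) (b (t.su d.v1.s)) = P1 at *
  generalize plow (d.v2.n0 / 2 ^ 32) d.v2.n (t.su d.v2.s) (b (t.su d.v2.s)) = P2 at *
  generalize rlow (d.v0.n0 / 2 ^ 32) d.v0.n (b (t.su d.v0.s)) = L0 at *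
  generalize rlow (d.v1.n0 / 2 ^ 32) d.v1.n (b (t.su d.v1.s)) = L1 at *
  generalize rlow (d.v2.n0 / 2 ^ 32) d.v2.n (b (t.su d.v2.s)) = L2 at *
  generalize (b (t.su d.v0.s)).im / √3 = Y0 at *
  generalize (b (t.su d.v1.s)).im / √3 = Y1 at *
  generalize (b (t.su d.v2.s)).im / √3 = Y2 at *
  generalize (b (t.su d.v0.s)).re = X0 at *
  generalize (b (t.su d.v1.s)).re = X1 at *
  generalize (b (t.su d.v2.s)).re = X2 at *
  have g : ∀ {r c : ℝ} (w : ℕ) (z : ℝ), 1 + c ^ 2 / 2 ≤ r → √3 * (2 * r * (w / 2 ^ 32)) *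
      (z / (2 * r)) = √3 * (w / 2 ^ 32 * z) := fun {r c} w z k => by
    have : 0 < r := by nlinarith [sq_nonneg c]
    field_simp
  rw [g _ _ r0, g _ _ r1, g _ _ r2] at key
  have k9 := (mul_le_mul_of_nonneg_right key E0.le).trans hη
  simp only [← mul_add] at k9
  rw [mul_assoc] at k9
  have k10 := mul_le_mul_of_nonneg_right (le_of_mul_le_mul_left k9 s3_pos)
    (show (0 : ℝ) ≤ 2 ^ 96 * (t.sd d.v0.s * t.sd d.v1.s * t.sd d.v2.s) by positivity)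
  have f : ∀ c a1 a2 a3 X Y : ℝ, c * a1 * 1 + (c * a2 * X + (c * a3 * Y + 0)) =
      c * (a1 + a2 * X + a3 * Y) := fun _ _ _ _ _ _ => by ring
  have f' : ∀ a1 a2 a3 X Y : ℝ, a1 * 1 + (a2 * X + (a3 * Y + 0)) = a1 + a2 * X + a3 * Y :=
    fun _ _ _ _ _ => by ring
  simp only [zero_mul, zero_add, f, f']
  rw [show (2 : ℝ) ^ 32 = 4294967296 by norm_num] at x0 x1 x2 y0 y1 y2
  rw [← x0, ← x1, ← x2, ← y0, ← y1, ← y2, ← l0, ← l1, ← l2]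
  linarith

end Pool.Agent.Lib.MP_fb520c_co.Asm
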