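import Mathlib

/-! A small language of nonnegative quadratic forms with integer data. -/

set_option autoImplicit false

namespace Pool.Agent.Lib.MP_fb520c_co.Asm

/-- a sparse linear form with integer coefficients -/
abbrev Row := List (ℕ × ℤ)

/-- the value of a sparse linear form -/
noncomputable def rev (x : ℕ → ℝ) : Row → ℝ
  | [] => 0
  | t :: r => (t.2 : ℝ) * x t.1 + rev x r

/-- the scalar product of an integer list and a real list -/
noncomputable def dot : List ℤ → List ℝ → ℝ
  | a :: u, v :: w => (a : ℝ) * v + dot u w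
  | _, _ => 0

/-- a sum of products of two dense forms -/
abbrev Terms := List (List ℤ × List ℤ)

/-- the value of a sum of products -/
noncomputable def tval (v : List ℝ) : Terms → ℝ
  | [] => 0
  | t :: T => dot t.1 v * dot t.2 v + tval v T

/-- atoms and a sum of products of combinations of the atoms -/
abbrev Blk := List Row × Terms

/-- the value of a block -/
noncomputable def bval (x : ℕ → ℝ) (B : Blk) : ℝ := tval (B.1.map (rev x)) B.2

/-- the value of a list of blocks -/
noncomputable def lval (x : ℕ → ℝ) : List Blk → ℝ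
  | [] => 0
  | B :: L => bval x B + lval x L

/-- the list of blocks has nonnegative value -/
def Fact (x : ℕ → ℝ) (L : List Blk) : Prop := 0 ≤ lval x L

/-- admissible values of the variables -/
def Adm (x : ℕ → ℝ) : Prop := x 0 = 1 ∧ ∀ i, |x i| ≤ 1

@[simp] lemma rev_nil (x : ℕ → ℝ) : rev x [] = 0 := rfl
@[simp] lemma rev_cons (x : ℕ → ℝ) (t : ℕ × ℤ) (r : Row) :
    rev x (t :: r) = (t.2 : ℝ) * x t.1 + rev x r := rfl
@[simp] lemma dot_nil_left (v : List ℝ) : dot [] v = 0 := by cases v <;> rfl
@[simp] lemma dot_nil_right (u : List ℤ) : dot u [] = 0 := by cases u <;> rfl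
@[simp] lemma dot_cons (a : ℤ) (u : List ℤ) (v : ℝ) (w : List ℝ) :
    dot (a :: u) (v :: w) = (a : ℝ) * v + dot u w := rfl
@[simp] lemma tval_nil (v : List ℝ) : tval v [] = 0 := rfl
@[simp] lemma tval_cons (v : List ℝ) (t : List ℤ × List ℤ) (T : Terms) :
    tval v (t :: T) = dot t.1 v * dot t.2 v + tval v T := rfl
@[simp] lemma lval_nil (x : ℕ → ℝ) : lval x [] = 0 := rfl
@[simp] lemma lval_cons (x : ℕ → ℝ) (B : Blk) (L : List Blk) :
    lval x (B :: L) = bval x B + lval x L := rfl

lemma rev_append (x : ℕ → ℝ) (r s : Row) : rev x (r ++ s) = rev x r + rev x s := by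
  induction r with
  | nil => simp
  | cons t r ih => simp [ih]; ring

lemma tval_append (v : List ℝ) (T T' : Terms) : tval v (T ++ T') = tval v T + tval v T' := by
  induction T with
  | nil => simp
  | cons t T ih => simp [ih]; ring

lemma lval_append (x : ℕ → ℝ) (L L' : List Blk) : lval x (L ++ L') = lval x L + lval x L' := by
  induction L with
  | nil => simp
  | cons t T ih => simp [ih]; ring

/-- a multiple of a sparse form -/
def rsc (c : ℤ) (r : Row) : Row := r.map fun t => (t.1, c * t.2)

lemma rev_rsc (x : ℕ → ℝ) (c : ℤ) (r : Row) : rev x (rsc c r) = c * rev x r := by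
  induction r with
  | nil => simp [rsc]
  | cons t r ih => simp only [rsc, List.map_cons, rev_cons] at ih ⊢; rw [ih]; push_cast; ring

lemma dot_map_mul (c : ℤ) (u : List ℤ) (v : List ℝ) : dot (u.map (c * ·)) v = c * dot u v := by
  induction u generalizing v with
  | nil => simp
  | cons a u ih => cases v with
    | nil => simp
    | cons b v => simp [ih]; ring

lemma dot_map_smul (c : ℝ) (u : List ℤ) (v : List ℝ) : dot u (v.map (c * ·)) = c * dot u v := by
  induction u generalizing v with
  | nil => simp
  | cons a u ih => cases v with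
    | nil => simp
    | cons b v => simp [ih]; ring

lemma tval_map_smul (c : ℝ) (v : List ℝ) (T : Terms) :
    tval (v.map (c * ·)) T = c ^ 2 * tval v T := by
  induction T with
  | nil => simp
  | cons t T ih => simp [ih, dot_map_smul]; ring

/-- a multiple of a sum of products -/
def tsc (c : ℤ) (T : Terms) : Terms := T.map fun t => (t.1.map (c * ·), t.2)

lemma tval_tsc (v : List ℝ) (c : ℤ) (T : Terms) : tval v (tsc c T) = c * tval v T := by
  induction T with
  | nil => simp [tsc]
  | cons t T ih =>
    simp only [tsc, List.map_cons, tval_cons] at ih ⊢; rw [ih, dot_map_mul]; ring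

/-- a multiple of a list of blocks -/
def lsc (c : ℤ) (L : List Blk) : List Blk := L.map fun B => (B.1, tsc c B.2)

lemma lval_lsc (x : ℕ → ℝ) (c : ℤ) (L : List Blk) : lval x (lsc c L) = c * lval x L := by
  induction L with
  | nil => simp [lsc]
  | cons B L ih =>
    simp only [lsc, List.map_cons, lval_cons, bval] at ih ⊢; rw [ih, tval_tsc]; ring

/-- the product of two sparse forms -/
def mulB (l l' : Row) : Blk := ([l, l'], [([1], [0, 1])])

lemma bval_mulB (x : ℕ → ℝ) (l l' : Row) : bval x (mulB l l') = rev x l * rev x l' := by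
  simp [bval, mulB]

/-- a sparse form as a block -/
def linB (l : Row) : Blk := mulB l [(0, 1)]

lemma bval_linB {x : ℕ → ℝ} (h : Adm x) (l : Row) : bval x (linB l) = rev x l := by
  simp [linB, bval_mulB, h.1]

/-- a constant as a block -/
def cstB (c : ℤ) : Blk := linB [(0, c)]

lemma bval_cstB {x : ℕ → ℝ} (h : Adm x) (c : ℤ) : bval x (cstB c) = c := by
  simp [cstB, bval_linB h, h.1]

/-- a weighted sum of squares -/
def sqL (A : List (ℕ × Row)) : List Blk := A.map fun t => mulB (rsc t.1 t.2) t.2

lemma fact_sqL (x : ℕ → ℝ) (A : List (ℕ × Row)) : Fact x (sqL A) := by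
  unfold Fact
  induction A with
  | nil => simp [sqL]
  | cons t A ih =>
    simp only [sqL, List.map_cons, lval_cons, bval_mulB, rev_rsc] at ih ⊢
    have : (0 : ℝ) ≤ ((t.1 : ℤ) : ℝ) * rev x t.2 * rev x t.2 := by
      rw [mul_assoc]; exact mul_nonneg (by positivity) (mul_self_nonneg _)
    linarith

/-- the position of a variable in a list -/
def pos (i : ℕ) : List ℕ → ℕ → ℕ
  | [], _ => 0
  | a :: P, k => bif Nat.beq a i then k else pos i P (k + 1)

/-- all variables of the form occur in the list -/
def rowIn (P : List ℕ) (r : Row) : Bool := r.all fun t => P.any fun a => Nat.beq a t.1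

/-- all variables of the blocks occur in the list -/
def allIn (P : List ℕ) (L : List Blk) : Bool := L.all fun B => B.1.all (rowIn P)

/-- renumber the variables of a form -/
def rren (P : List ℕ) (r : Row) : Row := r.map fun t => (pos t.1 P 0, t.2)

/-- renumber the variables of a list of blocks -/
def lren (P : List ℕ) (L : List Blk) : List Blk := L.map fun B => (B.1.map (rren P), B.2)

lemma getD_pos (i : ℕ) (P : List ℕ) (k : ℕ) (h : (P.any fun a => Nat.beq a i) = true) :
    k ≤ pos i P k ∧ P.getD (pos i P k - k) 0 = i := by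
  induction P generalizing k with
  | nil => simp at h
  | cons a P ih =>
    unfold pos
    cases e : Nat.beq a i with
    | true => simpa using Nat.eq_of_beq_eq_true e
    | false =>
      simp only [List.any_cons, e, Bool.false_or] at h
      obtain ⟨h1, h2⟩ := ih (k + 1) h
      refine ⟨by simp only [cond_false]; omega, ?_⟩
      simp only [cond_false]
      rw [show pos i P (k + 1) - k = pos i P (k + 1) - (k + 1) + 1 by omega]
      simpa using h2

lemma rev_rren (x : ℕ → ℝ) (P : List ℕ) (r : Row) (h : rowIn P r = true) :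
    rev (fun k => x (P.getD k 0)) (rren P r) = rev x r := by
  induction r with
  | nil => simp [rren]
  | cons t r ih =>
    simp only [rowIn, List.all_cons, Bool.and_eq_true] at h ih
    simp only [rren, List.map_cons, rev_cons] at ih ⊢
    have := (getD_pos t.1 P 0 h.1).2
    rw [Nat.sub_zero] at this
    rw [ih h.2, this]

lemma lval_lren (x : ℕ → ℝ) (P : List ℕ) (L : List Blk) (h : allIn P L = true) :
    lval (fun k => x (P.getD k 0)) (lren P L) = lval x L := by
  induction L with
  | nil => simp [lren]
  | cons B L ih =>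
    simp only [allIn, List.all_cons, Bool.and_eq_true] at h ih
    simp only [lren, List.map_cons, lval_cons, bval] at ih ⊢
    rw [ih h.2, List.map_map]
    congr 2
    exact List.map_congr_left fun r hr => rev_rren x P r (List.all_eq_true.1 h.1 r hr)

lemma Adm.ren {x : ℕ → ℝ} (h : Adm x) (P : List ℕ) : Adm fun k => x ((0 :: P).getD k 0) :=
  ⟨h.1, fun _ => h.2 _⟩

/-- minus a combination of lists of blocks -/
def negs : List (ℕ × List Blk) → List Blk
  | [] => []
  | t :: S => lsc (-t.1) t.2 ++ negs S

/-- all lists are facts -/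
def Facts (x : ℕ → ℝ) : List (ℕ × List Blk) → Prop
  | [] => True
  | t :: S => Fact x t.2 ∧ Facts x S

lemma lval_negs {x : ℕ → ℝ} {S : List (ℕ × List Blk)} (h : Facts x S) : lval x (negs S) ≤ 0 := by
  induction S with
  | nil => simp [negs]
  | cons t S ih =>
    have h1 : 0 ≤ lval x t.2 := h.1
    have := mul_nonneg (Nat.cast_nonneg (α := ℝ) t.1) h1
    rw [negs, lval_append, lval_lsc]
    push_cast
    linarith [ih h.2]

/-- the blocks that the positivity check of a combination step reads -/
def combL (P : List ℕ) (τ : ℕ) (G : List Blk) (S : List (ℕ × List Blk)) : List Blk :=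
  lren (0 :: P) (lsc (τ + 1) G ++ negs S)

theorem comb {x : ℕ → ℝ} (hx : Adm x) (P : List ℕ) (τ : ℕ) (G : List Blk)
    (S : List (ℕ × List Blk)) (hS : Facts x S)
    (h1 : allIn (0 :: P) (lsc (τ + 1) G ++ negs S) = true)
    (h2 : ∀ y, Adm y → Fact y (combL P τ G S)) : Fact x G := by
  have := h2 _ (hx.ren P)
  unfold Fact at this ⊢
  rw [combL, lval_lren x _ _ h1, lval_append, lval_lsc] at this
  push_cast at this
  exact nonneg_of_mul_nonneg_right (le_trans this (by linarith [lval_negs hS]))
    (by positivity : (0 : ℝ) < τ + 1) |> fun h => h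

theorem prod {x : ℕ → ℝ} (hx : Adm x) {l l' : Row} {R R' : List Blk} {U U' : ℕ}
    (h : Fact x (linB l :: R)) (h' : Fact x (linB l' :: R')) (hR : Fact x R) (hR' : Fact x R')
    (hU : Fact x [linB ((0, (U : ℤ)) :: rsc (-1) l)])
    (hU' : Fact x [linB ((0, (U' : ℤ)) :: rsc (-1) l')]) :
    Fact x (mulB l l' :: (lsc U' R ++ lsc U R')) := by
  unfold Fact at *
  simp only [lval_cons, lval_nil, bval_linB hx, bval_mulB, lval_append, lval_lsc, rev_cons,
    rev_rsc, hx.1] at *
  push_cast at *
  have U0 : (0 : ℝ) ≤ U := Nat.cast_nonneg _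
  have U0' : (0 : ℝ) ≤ U' := Nat.cast_nonneg _
  generalize rev x l = a at *
  generalize rev x l' = a' at *
  generalize lval x R = r at *
  generalize lval x R' = r' at *
  have p1 := mul_nonneg hR U0'
  have p2 := mul_nonneg hR' U0
  rcases le_total 0 a with k | k <;> rcases le_total 0 a' with k' | k'
  · nlinarith [mul_nonneg k k']
  · nlinarith [mul_nonneg k h', mul_le_mul_of_nonneg_left (show a ≤ U by linarith) hR']
  · nlinarith [mul_nonneg h k', mul_le_mul_of_nonneg_left (show a' ≤ U' by linarith) hR]
  · nlinarith [mul_nonneg_of_nonpos_of_nonpos k k']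

theorem prod0 {x : ℕ → ℝ} (hx : Adm x) {l l' : Row} (h : Fact x [linB l])
    (h' : Fact x [linB l']) : Fact x [mulB l l'] := by
  unfold Fact at *
  simp only [lval_cons, lval_nil, bval_linB hx, bval_mulB, add_zero] at *
  exact mul_nonneg h h'

theorem eqmul {x : ℕ → ℝ} {l : Row} (h : rev x l = 0) (l' : Row) : Fact x [mulB l l'] := by
  simp [Fact, bval_mulB, h]

theorem branch {x : ℕ → ℝ} (hx : Adm x) (l : Row) :
    Fact x [linB l] ∨ Fact x [linB (rsc (-1) l)] := by
  simp only [Fact, lval_cons, lval_nil, bval_linB hx, rev_rsc, add_zero]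
  rcases le_total 0 (rev x l) with h | h
  · exact Or.inl h
  · right; push_cast; linarith

theorem absurd_fact {x : ℕ → ℝ} (hx : Adm x) (h : Fact x [cstB (-1)]) : False := by
  simp only [Fact, lval_cons, lval_nil, bval_cstB hx] at h
  norm_num at h

/-- the facts of the segments -/
def SegFacts (x : ℕ → ℝ) : List (List Blk × List Blk) → Prop
  | [] => True
  | t :: S => Fact x (t.1 ++ lsc (-1) t.2) ∧ SegFacts x S

theorem seg_sum {x : ℕ → ℝ} (B : Blk) (S : List (List Blk × List Blk)) (hS : SegFacts x S)
    (h : Fact x (B :: lsc (-1) (S.map Prod.fst).flatten)) :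
    Fact x (B :: lsc (-1) (S.map Prod.snd).flatten) := by
  have : lval x (S.map Prod.snd).flatten ≤ lval x (S.map Prod.fst).flatten := by
    clear h
    induction S with
    | nil => simp
    | cons t S ih =>
      have h1 : 0 ≤ lval x (t.1 ++ lsc (-1) t.2) := hS.1
      rw [lval_append, lval_lsc] at h1
      simp only [List.map_cons, List.flatten_cons, lval_append]
      push_cast at h1
      linarith [ih hS.2]
  unfold Fact at *
  rw [lval_cons, lval_lsc] at *
  push_cast at *
  linarith

end Pool.Agent.Lib.MP_fb520c_co.Asm
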