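import Pool.Agent.Lib.MP_fb520c_co.Asm.Tab

/-! Primitive facts: bounds, phase and area. -/

set_option autoImplicit false

open Complex ComplexConjugate

namespace Pool.Agent.Lib.MP_fb520c_co.Asm

open Dent

/-- bounds of `b` at the entries of the table, in units of `2 ^ (-32)` -/
def Bd (t : Tab) (b : ℂ → ℂ) (be : ℕ → ℕ) : Prop := ∀ m, ‖b (t.u m)‖ ≤ be m / 2 ^ 32

lemma nsq3 (z : ℂ) : ‖z‖ ^ 2 = z.re ^ 2 + 3 * (z.im / √3) ^ 2 := by
  rw [nsq, div_pow, Real.sq_sqrt (by norm_num)]; ring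

lemma cr3 (z w : ℂ) : cr z w = √3 * (z.re * (w.im / √3) - z.im / √3 * w.re) := by
  rw [cr]; field_simp

/-- the form `β ^ 2 - 2 ^ 64 ‖b‖ ^ 2` -/
def ballB (s : Smp) (β : ℕ) : Blk :=
  (atoms [s], [([(β : ℤ) * β], [1]), ([0, -2 ^ 64], [0, 1]), ([0, 0, -3 * 2 ^ 64], [0, 0, 1])])

/-- the first a priori bound at an entry of the table -/
def bap (t : Tab) (m : ℕ) : ℕ :=
  let c := max (2 * t.p m) (t.p m + 3 * t.q m)
  bif decide (0 ≤ c) then
    min 751619277 (((2887 * (1016423 * (2 * t.d m) - 1000000 * c) * 2 ^ 32) /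
      (2500000000 * (2 * t.d m)) + 1).toNat) else 751619277

/-- the form `2 Re F` -/
def phX (L : List (Smp × ℤ × ℤ)) : Row :=
  L.flatMap fun a => rsc a.2.1 (rX a.1) ++ rsc (-3 * a.2.2) (rY a.1)

/-- the form `2 Im F / √3` -/
def phY (L : List (Smp × ℤ × ℤ)) : Row :=
  L.flatMap fun a => rsc a.2.1 (rY a.1) ++ rsc a.2.2 (rX a.1)

/-- the directions of the phase functional -/
noncomputable def phU (t : Tab) (L : List (Smp × ℤ × ℤ)) (k : Fin 7) : ℂ :=
  t.su (L.getD k ((0, 0), 0, 0)).1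

/-- the coefficients of the phase functional -/
noncomputable def phC (L : List (Smp × ℤ × ℤ)) (k : Fin 7) : ℂ :=
  ⟨(L.getD k ((0, 0), 0, 0)).2.1, (L.getD k ((0, 0), 0, 0)).2.2 * √3⟩

namespace Ctx

variable {t : Tab} {A η : ℝ} {b : ℂ → ℂ} (h : Ctx t A η b)
include h

lemma ball_val (s : Smp) (β : ℕ) : lval (xv t b) [ballB s β] =
    4 * ((β : ℝ) ^ 2 - 2 ^ 64 * ‖b (t.u s.2)‖ ^ 2) := by
  rw [← h.nsu, nsq3]
  simp only [lval_cons, lval_nil, ballB, h.bval_atoms, vals, List.flatMap_cons, List.flatMap_nil,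
    List.append_nil, tval_cons, tval_nil, dot_cons, dot_nil_left]
  push_cast; ring

theorem ball {be : ℕ → ℕ} (hb : Bd t b be) (s : Smp) {β : ℕ} (k : Nat.ble (be s.2) β = true) :
    Fact (xv t b) [ballB s β] := by
  have k1 : (be s.2 : ℝ) ≤ β := by exact_mod_cast Nat.le_of_ble_eq_true k
  have k2 : ‖b (t.u s.2)‖ * 2 ^ 32 ≤ β := by
    have := hb s.2
    rw [le_div_iff₀ (by positivity)] at this
    linarith
  have := pow_le_pow_left₀ (by positivity) k2 2
  rw [Fact, h.ball_val]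
  linarith

theorem of_ball {s : Smp} {β : ℕ} (k : Fact (xv t b) [ballB s β]) :
    ‖b (t.u s.2)‖ ≤ β / 2 ^ 32 := by
  rw [Fact, h.ball_val] at k
  rw [le_div_iff₀ (by positivity)]
  exact (abs_le_of_sq_le_sq' (by linarith) (by positivity)).2

theorem bd_bap : Bd t b (bap t) := by
  intro m
  have k0 : ‖b (t.u m)‖ ≤ (751619277 : ℕ) / 2 ^ 32 :=
    (h.geo.ap1_be (h.un m) h.eta).trans (by norm_num)
  have d0 : (0 : ℝ) < t.d m := by exact_mod_cast t.d_pos h.S0 m
  unfold bap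
  simp only
  generalize hc : max (2 * t.p m) (t.p m + 3 * t.q m) = c
  cases e : decide (0 ≤ c) with
  | false => exact k0
  | true =>
    have c0 : (0 : ℝ) ≤ c := by exact_mod_cast of_decide_eq_true e
    have k1 : ‖b (t.u m)‖ ≤ 1.1548 * (1.016423 - c / (2 * t.d m)) := by
      rcases max_choice (2 * t.p m) (t.p m + 3 * t.q m) with k | k
      · have e1 : (t.u m).re = c / (2 * t.d m) := by
          rw [← hc, k]; simp only [Tab.u]; push_cast; field_simp
        rw [← e1]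
        exact h.geo.ap1 (h.un m) h.eta (by rw [e1]; positivity)
      · have e1 : (conj om * t.u m).re = c / (2 * t.d m) := by
          rw [← hc, k]; simp only [Tab.u, om, mul_re, conj_re, conj_im]; push_cast; field_simp
          linear_combination (t.q m : ℝ) * s3
        rw [← e1]
        exact h.geo.ap1_om (h.un m) h.eta (by rw [e1]; positivity)
    rw [cond_true]
    rcases min_choice 751619277 (((2887 * (1016423 * (2 * t.d m) - 1000000 * c) * 2 ^ 32) /
      (2500000000 * (2 * t.d m)) + 1).toNat) with k | k <;> rw [k]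
    · exact k0
    refine k1.trans ?_
    rw [le_div_iff₀ (by positivity)]
    generalize hn : 2887 * (1016423 * (2 * t.d m) - 1000000 * c) * 2 ^ 32 = n
    have D0 : 0 < 2500000000 * (2 * t.d m) := by linarith [t.d_pos h.S0 m]
    have k2 : n ≤ (n / (2500000000 * (2 * t.d m)) + 1).toNat * (2500000000 * (2 * t.d m)) :=
      (Int.lt_ediv_add_one_mul_self n D0).le.trans
        (mul_le_mul_of_nonneg_right (Int.self_le_toNat _) D0.le)
    have k3 : (n : ℝ) ≤ ((n / (2500000000 * (2 * t.d m)) + 1).toNat : ℕ) *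
        (2500000000 * (2 * t.d m)) := by exact_mod_cast k2
    rw [← div_le_iff₀ (by positivity)] at k3
    refine le_of_eq_of_le ?_ k3
    rw [← hn]; push_cast; field_simp; ring

lemma ph_val (L : List (Smp × ℤ × ℤ)) :
    rev (xv t b) (phX L) = 2 * (L.map fun a => (⟨a.2.1, a.2.2 * √3⟩ : ℂ) * b (t.su a.1)).sum.re ∧
    rev (xv t b) (phY L) =
      2 * ((L.map fun a => (⟨a.2.1, a.2.2 * √3⟩ : ℂ) * b (t.su a.1)).sum.im / √3) := by
  induction L with
  | nil => simp [phX, phY]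
  | cons a L ih =>
    simp only [phX, phY, List.flatMap_cons, rev_append, rev_rsc, h.rev_rX, h.rev_rY, List.map_cons,
      List.sum_cons, add_re, add_im, mul_re, mul_im] at ih ⊢
    rw [ih.1, ih.2]
    push_cast
    constructor
    · field_simp
      linear_combination ((a.2.2 : ℝ) * (b (t.su a.1)).im) * s3
    · field_simp

theorem phase {L : List (Smp × ℤ × ℤ)} (h7 : L.length = 7) (hp : Phase (phU t L) (phC L) b) :
    rev (xv t b) (phY L) = 0 ∧ Fact (xv t b) [linB (phX L)] := by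
  have e : ∑ k, phC L k * b (phU t L k) =
      (L.map fun a => (⟨a.2.1, a.2.2 * √3⟩ : ℂ) * b (t.su a.1)).sum := by
    match L, h7 with
    | [a0, a1, a2, a3, a4, a5, a6], _ => simp [Fin.sum_univ_seven, phC, phU, add_assoc]
  rw [Phase, e] at hp
  simp only [Fact, lval_cons, lval_nil, bval_linB h.adm, (h.ph_val L).1, (h.ph_val L).2, hp.1]
  exact ⟨by simp, by linarith [hp.2]⟩

end Ctx

lemma phU_norm {t : Tab} (h : 0 < t.S) (L : List (Smp × ℤ × ℤ)) (k : Fin 7) : ‖phU t L k‖ = 1 := by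
  obtain ⟨j, e⟩ := ej_cases (L.getD k ((0, 0), 0, 0)).1.1
  rw [phU, Tab.su, e, norm_mul, norm_pow, norm_om, t.u_norm h, one_pow, one_mul]

/-- two consecutive samples and a bound of `‖b‖ ^ 2` in units of `2 ^ (-16)` -/
abbrev Pair := Smp × Smp × ℕ

/-- the determinant of two directions times the denominators over `√3` -/
def Tab.sg (t : Tab) (s s' : Smp) : ℤ := t.sp s * t.sq s' - t.sq s * t.sp s'

lemma Tab.cr_su {t : Tab} (h : 0 < t.S) (s s' : Smp) :
    cr (t.su s) (t.su s') = √3 * (t.sg s s' / (t.sd s * t.sd s')) := by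
  have d0 : (t.sd s : ℝ) ≠ 0 := by exact_mod_cast (t.sd_pos h s).ne'
  have d1 : (t.sd s' : ℝ) ≠ 0 := by exact_mod_cast (t.sd_pos h s').ne'
  rw [t.su_eq h, t.su_eq h, cr, Tab.sg]; push_cast; field_simp

/-- the area form of a pair from the rounded determinant -/
def areaT (S β : ℤ) : Terms :=
  [([S * 2 ^ 17], [1]), ([0, 1], [0, S * (2 ^ 16 - β), 0, 2 * (S * β), 2 ^ 81]),
    ([0, 0, 1], [0, 0, 3 * (S * (2 ^ 16 - β)), -2 ^ 81, 6 * (S * β)]),
    ([0, 0, 0, 1], [0, 0, 0, S * (2 ^ 16 - β)]),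
    ([0, 0, 0, 0, 1], [0, 0, 0, 0, 3 * (S * (2 ^ 16 - β))])]

/-- the area form of a pair, in units of `2 ^ (-83)` -/
def areaB (t : Tab) (a : Pair) : Blk :=
  (atoms [a.1, a.2.1], areaT (t.sg a.1 a.2.1 * 2 ^ 64 / (t.sd a.1 * t.sd a.2.1)) a.2.2)

/-- the area forms of a segment -/
def areaL (t : Tab) (P : List Pair) : List Blk := P.map (areaB t)

/-- the side conditions of a pair -/
def pairOK (t : Tab) (be : ℕ → ℕ) (a : Pair) : Bool :=
  decide (0 < t.sg a.1 a.2.1) && decide (44 * t.sg a.1 a.2.1 ≤ t.sd a.1 * t.sd a.2.1) &&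
    decide (0 ≤ t.sp a.1 * t.sp a.2.1 + 3 * (t.sq a.1 * t.sq a.2.1)) &&
    decide (t.sq a.1 < t.sp a.1) && decide (0 < t.sq a.2.1) &&
    Nat.ble (be a.1.2 * be a.1.2) (a.2.2 * 2 ^ 48) &&
    Nat.ble (be a.2.1.2 * be a.2.1.2) (a.2.2 * 2 ^ 48)

/-- the pairs lead from `s` to the end of the sector -/
def chainOK (t : Tab) (be : ℕ → ℕ) : Smp → List Pair → Bool
  | s, [] => Nat.beq s.1 1 && Nat.beq s.2 0
  | s, a :: P => Nat.beq a.1.1 s.1 && Nat.beq a.1.2 s.2 && pairOK t be a && chainOK t be a.2.1 P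

/-- the samples along a chain -/
def nth : Smp → List Pair → ℕ → Smp
  | s, [], _ => s
  | s, _ :: _, 0 => s
  | _, a :: P, m + 1 => nth a.2.1 P m

lemma nth_zero (s : Smp) (P : List Pair) : nth s P 0 = s := by cases P <;> rfl

lemma chain_spec {t : Tab} {be : ℕ → ℕ} {s : Smp} {P : List Pair} (h : chainOK t be s P = true) :
    nth s P P.length = (1, 0) ∧
    (∀ m < P.length, ∃ β, pairOK t be (nth s P m, nth s P (m + 1), β) = true) ∧
    ∀ (f : Smp → Smp → ℝ) (g : Pair → ℝ), (∀ a, pairOK t be a = true → g a ≤ f a.1 a.2.1) →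
      (P.map g).sum ≤ ∑ m ∈ Finset.range P.length, f (nth s P m) (nth s P (m + 1)) := by
  induction P generalizing s with
  | nil =>
    simp only [chainOK, Bool.and_eq_true, Nat.beq_eq] at h
    exact ⟨Prod.ext h.1 h.2, by simp, by simp⟩
  | cons a P ih =>
    simp only [chainOK, Bool.and_eq_true, Nat.beq_eq] at h
    obtain ⟨⟨⟨e1, e2⟩, k⟩, k'⟩ := h
    obtain rfl : a.1 = s := Prod.ext e1 e2
    obtain ⟨i1, i2, i3⟩ := ih k'
    refine ⟨i1, fun m hm => ?_, fun f g hg => ?_⟩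
    · cases m with
      | zero => exact ⟨a.2.2, by simpa only [nth, nth_zero] using k⟩
      | succ m => exact i2 m (by simpa using hm)
    · rw [List.length_cons, Finset.sum_range_succ', List.map_cons, List.sum_cons, add_comm]
      exact add_le_add (i3 f g hg) (by simpa only [nth, nth_zero] using hg a k)

lemma lval_eq_sum (x : ℕ → ℝ) (L : List Blk) : lval x L = (L.map (bval x)).sum := by
  induction L with
  | nil => simp
  | cons B L ih => simp [ih]

namespace Ctx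

variable {t : Tab} {A η : ℝ} {b : ℂ → ℂ} (h : Ctx t A η b)
include h

lemma area_le {be : ℕ → ℕ} (hb : Bd t b be) (a : Pair) (k : pairOK t be a = true) :
    √3 * bval (xv t b) (areaB t a) ≤ 2 ^ 83 *
      ((1 + (‖b (t.su a.1)‖ ^ 2 + ‖b (t.su a.2.1)‖ ^ 2) / 2 -
        max ‖b (t.su a.1)‖ ‖b (t.su a.2.1)‖ ^ 2 * ‖b (t.su a.1) - b (t.su a.2.1)‖ ^ 2 / 2) *
        cr (t.su a.1) (t.su a.2.1) + cr (b (t.su a.1)) (b (t.su a.2.1))) := by
  simp only [pairOK, Bool.and_eq_true, decide_eq_true_eq, Nat.ble_eq] at k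
  obtain ⟨⟨⟨⟨⟨⟨k1, -⟩, -⟩, -⟩, -⟩, k6⟩, k7⟩ := k
  have f : ∀ s : Smp, be s.2 * be s.2 ≤ a.2.2 * 2 ^ 48 → ‖b (t.su s)‖ ^ 2 * 2 ^ 16 ≤ a.2.2 := by
    intro s hs
    have e1 : (be s.2 : ℝ) * be s.2 ≤ a.2.2 * 2 ^ 48 := by exact_mod_cast hs
    have e2 := hb s.2
    rw [← h.nsu, le_div_iff₀ (by positivity)] at e2
    have := pow_le_pow_left₀ (by positivity) e2 2
    linarith
  have n1 := h.geo.ap1_be (h.sun a.1) h.eta
  have n2 := h.geo.ap1_be (h.sun a.2.1) h.eta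
  have m1 : max ‖b (t.su a.1)‖ ‖b (t.su a.2.1)‖ ^ 2 * 2 ^ 16 ≤ a.2.2 := by
    rcases max_choice ‖b (t.su a.1)‖ ‖b (t.su a.2.1)‖ with e | e <;> rw [e]
    · exact f _ k6
    · exact f _ k7
  have m2 : max ‖b (t.su a.1)‖ ‖b (t.su a.2.1)‖ ^ 2 ≤ 1 :=
    pow_le_one₀ (le_max_of_le_left (norm_nonneg _)) (max_le (by linarith) (by linarith))
  have m3 : ‖b (t.su a.1) - b (t.su a.2.1)‖ ^ 2 ≤ 1 :=
    pow_le_one₀ (norm_nonneg _) ((norm_sub_le _ _).trans (by linarith))
  have D0 := mul_pos (t.sd_pos h.S0 a.1) (t.sd_pos h.S0 a.2.1)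
  have D1 : (0 : ℝ) < t.sd a.1 * t.sd a.2.1 := by exact_mod_cast D0
  rw [areaB, h.bval_atoms, t.cr_su h.S0, cr3]
  generalize hS : t.sg a.1 a.2.1 * 2 ^ 64 / (t.sd a.1 * t.sd a.2.1) = S
  have S0 : (0 : ℝ) ≤ S := by
    rw [← hS]; exact_mod_cast Int.ediv_nonneg (by positivity) D0.le
  have S1 : (S : ℝ) ≤ t.sg a.1 a.2.1 / (t.sd a.1 * t.sd a.2.1) * 2 ^ 64 := by
    rw [div_mul_eq_mul_div, le_div_iff₀ D1, ← hS]
    exact_mod_cast Int.ediv_mul_le _ D0.ne'
  generalize (t.sg a.1 a.2.1 : ℝ) / (t.sd a.1 * t.sd a.2.1) = σ at *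
  generalize max ‖b (t.su a.1)‖ ‖b (t.su a.2.1)‖ ^ 2 = M at *
  have q0 := sq_nonneg ‖b (t.su a.1) - b (t.su a.2.1)‖
  have g0 : 0 ≤ 1 + (‖b (t.su a.1)‖ ^ 2 + ‖b (t.su a.2.1)‖ ^ 2) / 2 -
      M * ‖b (t.su a.1) - b (t.su a.2.1)‖ ^ 2 / 2 := by
    nlinarith [sq_nonneg ‖b (t.su a.1)‖, sq_nonneg ‖b (t.su a.2.1)‖]
  have g1 := mul_le_mul_of_nonneg_left S1 g0
  have g2 := mul_le_mul_of_nonneg_left (mul_le_mul_of_nonneg_right m1 q0) S0
  rw [mul_left_comm _ √3 σ, ← mul_add, mul_left_comm _ √3]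
  refine mul_le_mul_of_nonneg_left ?_ s3_pos.le
  simp only [nsq3, sub_re, sub_im, sub_div] at g1 g2 ⊢
  simp only [areaT, vals, List.flatMap_cons, List.flatMap_nil, List.append_nil, List.cons_append,
    List.nil_append, tval_cons, tval_nil, dot_cons, dot_nil_left]
  push_cast
  linarith

theorem area {be : ℕ → ℕ} (hb : Bd t b be) {An Ad c : ℕ} (hA : A = √3 * (An / Ad))
    (S : List (List Pair)) (k : chainOK t be (0, 0) S.flatten = true) (d0 : Nat.ble 1 Ad = true)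
    (kc : Nat.ble (2 ^ 83 * An) (3 * c * Ad) = true) :
    Fact (xv t b) (cstB c :: lsc (-1) (S.map (areaL t)).flatten) := by
  obtain ⟨i1, i2, i3⟩ := chain_spec k
  have N0 : 0 < S.flatten.length := by
    by_contra hn
    rw [show S.flatten.length = 0 by omega, nth_zero] at i1
    cases i1
  have e0 : t.su (0, 0) = 1 := by
    rw [Tab.su, t.u_zero h.S0 h.T0]; apply Complex.ext <;> simp [ej, al, bt]
  have e1 : t.su (1, 0) = om := by
    rw [Tab.su, t.u_zero h.S0 h.T0]; apply Complex.ext <;> simp [ej, al, bt, om]; ring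
  have dd : ∀ s, (0 : ℝ) < t.sd s := fun s => by exact_mod_cast t.sd_pos h.S0 s
  have sp : ∀ {s s' : Smp} {β : ℕ}, pairOK t be (s, s', β) = true → 0 < (t.su s').im ∧
      0 < cr (t.su s) om ∧ 0 < cr (t.su s) (t.su s') ∧ cr (t.su s) (t.su s') ≤ 1 / 25 ∧
      0 ≤ (conj (t.su s) * t.su s').re := by
    intro s s' β k
    simp only [pairOK, Bool.and_eq_true, decide_eq_true_eq] at k
    obtain ⟨⟨⟨⟨⟨⟨k1, k2⟩, k3⟩, k4⟩, k5⟩, -⟩, -⟩ := k
    have d1 := dd s
    have d2 := dd s'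
    have c1 : (0 : ℝ) < t.sg s s' := by exact_mod_cast k1
    have c2 : 44 * (t.sg s s' : ℝ) ≤ t.sd s * t.sd s' := by exact_mod_cast k2
    have c3 : (0 : ℝ) ≤ t.sp s * t.sp s' + 3 * (t.sq s * t.sq s') := by exact_mod_cast k3
    have c4 : (t.sq s : ℝ) < t.sp s := by exact_mod_cast k4
    have c5 : (0 : ℝ) < t.sq s' := by exact_mod_cast k5
    refine ⟨by rw [t.su_eq h.S0]; positivity, ?_, by rw [t.cr_su h.S0]; positivity, ?_, ?_⟩
    · have : cr (t.su s) om = √3 / 2 * ((t.sp s - t.sq s) / t.sd s) := by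
        rw [t.su_eq h.S0, cr, om]; field_simp
      rw [this]; have := sub_pos.2 c4; positivity
    · rw [t.cr_su h.S0, ← mul_div_assoc, div_le_iff₀ (by positivity)]
      nlinarith [s3_hi]
    · have : (conj (t.su s) * t.su s').re =
          (t.sp s * t.sp s' + 3 * (t.sq s * t.sq s')) / (t.sd s * t.sd s') := by
        rw [t.su_eq h.S0, t.su_eq h.S0]
        simp only [mul_re, conj_re, conj_im]
        field_simp
        linear_combination ((t.sq s : ℝ) * t.sq s') * s3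
      rw [this]; positivity
  have key := h.geo.ap3_low h.eta N0 (u := fun m => t.su (nth (0, 0) S.flatten m))
    (fun m _ => h.sun _) (by simpa only [nth_zero] using e0) (by simpa only [i1] using e1)
    (fun m m0 hm => by
      obtain ⟨β, k⟩ := i2 (m - 1) (by omega)
      simpa only [show m - 1 + 1 = m by omega] using (sp k).1)
    (fun m hm => let ⟨_, k⟩ := i2 m hm; (sp k).2.1)
    (fun m hm => let ⟨_, k⟩ := i2 m hm; (sp k).2.2.1)
    (fun m hm => let ⟨_, k⟩ := i2 m hm; (sp k).2.2.2.1)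
    (fun m hm => let ⟨_, k⟩ := i2 m hm; (sp k).2.2.2.2)
    (be := fun m => max ‖b (t.su (nth (0, 0) S.flatten m))‖ ‖b (t.su (nth (0, 0) S.flatten (m + 1)))‖)
    (fun m _ => ⟨le_max_left _ _, le_max_right _ _⟩)
  have k2 := i3 (fun s s' => 2 ^ 83 * ((1 + (‖b (t.su s)‖ ^ 2 + ‖b (t.su s')‖ ^ 2) / 2 -
    max ‖b (t.su s)‖ ‖b (t.su s')‖ ^ 2 * ‖b (t.su s) - b (t.su s')‖ ^ 2 / 2) *
    cr (t.su s) (t.su s') + cr (b (t.su s)) (b (t.su s')))) _ (h.area_le hb)
  rw [← Finset.mul_sum, List.sum_map_mul_left] at k2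
  have e : (S.map (areaL t)).flatten = S.flatten.map (areaB t) := by
    rw [List.map_flatten]; rfl
  have A0 : (0 : ℝ) < Ad := by exact_mod_cast Nat.le_of_ble_eq_true d0
  have c1 : 2 ^ 83 * (An / Ad : ℝ) ≤ 3 * c := by
    rw [← mul_div_assoc, div_le_iff₀ A0]; exact_mod_cast Nat.le_of_ble_eq_true kc
  rw [Fact, lval_cons, lval_lsc, bval_cstB h.adm, e, lval_eq_sum, List.map_map]
  have c2 := mul_le_mul_of_nonneg_left c1 s3_pos.le
  have : √3 * (S.flatten.map (bval (xv t b) ∘ areaB t)).sum ≤ √3 * c := by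
    rw [hA] at key
    change √3 * (S.flatten.map (bval (xv t b) ∘ areaB t)).sum ≤ _ at k2
    linarith
  have := le_of_mul_le_mul_left this s3_pos
  push_cast
  linarith

end Ctx

end Pool.Agent.Lib.MP_fb520c_co.Asm
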