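import Pool.Agent.Lib.MP_fb520c_co.Asm.Rules
import Pool.Agent.Lib.MP_fb520c_co.Chk.PSD

/-! The combination step with the positivity test. -/

set_option autoImplicit false

namespace Pool.Agent.Lib.MP_fb520c_co.Asm

lemma linEv_eq (x : ℕ → ℝ) (r : Row) : Chk.linEv x r = rev x r := by
  induction r with
  | nil => rfl
  | cons t r ih => rw [rev_cons, ← ih]; simp [Chk.linEv]

lemma dot_eq (u : List ℤ) (v : List ℝ) : Chk.dot u v = dot u v := by
  induction u generalizing v with
  | nil => simp [Chk.dot]
  | cons a u ih => cases v with
    | nil => simp [Chk.dot]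
    | cons c v => rw [dot_cons, ← ih]; simp [Chk.dot]

lemma bil_eq (T : Terms) (v : List ℝ) : Chk.bil T v = tval v T := by
  induction T with
  | nil => rfl
  | cons t T ih => rw [tval_cons, ← ih, ← dot_eq, ← dot_eq]; simp [Chk.bil]

/-- the `i`-th digit of a number in base `2 ^ 16` -/
def dig (lit i : ℕ) : ℕ := Nat.mod (Nat.shiftRight lit (Nat.mul 16 i)) 65536

/-- a form with the variables renumbered by the table `f` -/
noncomputable def renR (f : ℕ) (r : Row) : Row :=
  List.rec [] (fun t _ ih => Prod.rec (fun i c => (dig f i, c) :: ih) t) r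

/-- the table `g` inverts the table `f` on the variables of the form -/
noncomputable def invR (f g : ℕ) (r : Row) : Bool :=
  List.rec true (fun t _ ih => Prod.rec (fun i _ => Bool.rec false ih (Nat.beq (dig g (dig f i)) i)) t) r

/-- renumbered atoms -/
noncomputable def renA (f : ℕ) (a : List Row) : List Row :=
  List.rec [] (fun r _ ih => renR f r :: ih) a

/-- the table `g` inverts the table `f` on the variables of the atoms -/
noncomputable def invA (f g : ℕ) (a : List Row) : Bool :=
  List.rec true (fun r _ ih => Bool.rec false ih (invR f g r)) a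

/-- a multiple of a list -/
noncomputable def smulV (c : ℤ) (u : List ℤ) : List ℤ :=
  List.rec [] (fun a _ ih => Chk.imul c a :: ih) u

/-- a multiple of a sum of products, each product in both orders -/
noncomputable def symT (c : ℤ) (T : Terms) : Terms :=
  List.rec [] (fun t _ ih => Prod.rec (fun u v => (smulV c u, v) :: (v, smulV c u) :: ih) t) T

/-- the blocks for the positivity test: a multiple of `L`, followed by `R` -/
noncomputable def toB (f : ℕ) (c : ℤ) (L : List Blk) (R : List Chk.Block) : List Chk.Block :=
  List.rec R (fun B _ ih => Prod.rec (fun a T => ⟨renA f a, symT c T⟩ :: ih) B) L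

/-- the table `g` inverts the table `f` on the variables of the blocks -/
noncomputable def invL (f g : ℕ) (L : List Blk) : Bool :=
  List.rec true (fun B _ ih => Prod.rec (fun a _ => Bool.rec false ih (invA f g a)) B) L

/-- the blocks of minus a combination -/
noncomputable def toS (f : ℕ) (S : List (ℕ × List Blk)) : List Chk.Block :=
  List.rec [] (fun t _ ih => Prod.rec (fun c L => toB f (Chk.ineg c) L ih) t) S

/-- the table `g` inverts the table `f` on the variables of a combination -/
noncomputable def invS (f g : ℕ) (S : List (ℕ × List Blk)) : Bool :=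
  List.rec true (fun t _ ih => Prod.rec (fun _ L => Bool.rec false ih (invL f g L)) t) S

lemma rev_renR (x : ℕ → ℝ) {f g : ℕ} {r : Row} (h : invR f g r = true) :
    rev (fun k => x (dig g k)) (renR f r) = rev x r := by
  induction r with
  | nil => rfl
  | cons t r ih =>
    obtain ⟨i, c⟩ := t
    change Bool.rec false (invR f g r) (Nat.beq (dig g (dig f i)) i) = true at h
    cases e : Nat.beq (dig g (dig f i)) i with
    | false => rw [e] at h; cases h
    | true =>
      rw [e] at h
      change rev _ ((dig f i, c) :: renR f r) = _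
      rw [rev_cons, rev_cons, ih h, Nat.eq_of_beq_eq_true e]

lemma rev_renA (x : ℕ → ℝ) {f g : ℕ} {a : List Row} (h : invA f g a = true) :
    (renA f a).map (Chk.linEv fun k => x (dig g k)) = a.map (rev x) := by
  induction a with
  | nil => rfl
  | cons r a ih =>
    change Bool.rec false (invA f g a) (invR f g r) = true at h
    cases e : invR f g r with
    | false => rw [e] at h; cases h
    | true =>
      rw [e] at h
      change List.map _ (renR f r :: renA f a) = _
      rw [List.map_cons, List.map_cons, ih h, linEv_eq, rev_renR x e]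

lemma smulV_eq (c : ℤ) (u : List ℤ) : smulV c u = u.map (c * ·) := by
  induction u with
  | nil => rfl
  | cons a u ih => change Chk.imul c a :: smulV c u = _; rw [ih, Chk.imul_eq]; rfl

lemma tval_symT (v : List ℝ) (c : ℤ) (T : Terms) : tval v (symT c T) = 2 * (c * tval v T) := by
  induction T with
  | nil => simp [symT]
  | cons t T ih =>
    obtain ⟨u, w⟩ := t
    change tval v ((smulV c u, w) :: (w, smulV c u) :: symT c T) = _
    simp only [tval_cons, ih, smulV_eq, dot_map_mul]; ring

lemma val_toB (x : ℕ → ℝ) {f g : ℕ} (c : ℤ) {L : List Blk} (R : List Chk.Block)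
    (h : invL f g L = true) :
    ((toB f c L R).map (Chk.Block.val fun k => x (dig g k))).sum =
      2 * (c * lval x L) + (R.map (Chk.Block.val fun k => x (dig g k))).sum := by
  induction L with
  | nil => simp [toB]
  | cons B L ih =>
    obtain ⟨a, T⟩ := B
    change Bool.rec false (invL f g L) (invA f g a) = true at h
    cases e : invA f g a with
    | false => rw [e] at h; cases h
    | true =>
      rw [e] at h
      change (List.map _ (⟨renA f a, symT c T⟩ :: toB f c L R)).sum = _
      rw [List.map_cons, List.sum_cons, ih h, Chk.Block.val, rev_renA x e, bil_eq, tval_symT,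
        lval_cons, bval]
      ring

lemma val_toS {x : ℕ → ℝ} {f g : ℕ} {S : List (ℕ × List Blk)} (hS : Facts x S)
    (h : invS f g S = true) : ((toS f S).map (Chk.Block.val fun k => x (dig g k))).sum ≤ 0 := by
  induction S with
  | nil => simp [toS]
  | cons t S ih =>
    obtain ⟨c, L⟩ := t
    change Bool.rec false (invS f g S) (invL f g L) = true at h
    cases e : invL f g L with
    | false => rw [e] at h; cases h
    | true =>
      rw [e] at h
      change (List.map _ (toB f (Chk.ineg c) L (toS f S))).sum ≤ 0
      rw [val_toB x _ _ e, Chk.ineg_eq]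
      have := mul_nonneg (Nat.cast_nonneg (α := ℝ) c) hS.1
      push_cast
      linarith [ih hS.2 h]

/-- the data of a positivity test: the two tables of the renumbering, the multiplier `τ + 1` of the
goal, the parameters of the test and the squares -/
structure Cert where
  f : ℕ
  g : ℕ
  τ : ℕ
  H : ℕ
  n : ℕ
  k : ℕ
  O : ℕ
  sqs : List (ℕ × ℕ)

/-- the test of a combination step -/
noncomputable def combOK (c : Cert) (G : List Blk) (S : List (ℕ × List Blk)) : Bool :=
  Nat.ble 1 c.O && Nat.beq (dig c.g 0) 0 && invL c.f c.g G && invS c.f c.g S &&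
    Chk.psdOK c.H c.n c.k c.O (toB c.f (.ofNat (Nat.succ c.τ)) G (toS c.f S)) c.sqs

theorem comb_of {x : ℕ → ℝ} (hx : Adm x) (c : Cert) (G : List Blk) (S : List (ℕ × List Blk))
    (hS : Facts x S) (h : combOK c G S = true) : Fact x G := by
  simp only [combOK, Bool.and_eq_true, Nat.beq_eq, Nat.ble_eq] at h
  obtain ⟨⟨⟨⟨hO, h0⟩, h1⟩, h2⟩, h3⟩ := h
  have k := Chk.psd_sound hO h3 (x := fun k => x (dig c.g k)) (by simp only [h0, hx.1])
    (fun _ => hx.2 _)
  rw [val_toB x _ _ h1] at k
  have k1 := val_toS hS h2
  have k2 : (0 : ℝ) < ((Int.ofNat (Nat.succ c.τ) : ℤ) : ℝ) := by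
    rw [Int.ofNat_eq_natCast, Int.cast_natCast]; exact_mod_cast Nat.succ_pos _
  exact nonneg_of_mul_nonneg_right (by linarith) k2

theorem keep_of {x : ℕ → ℝ} (hx : Adm x) (c : Cert) (G H E : List Blk)
    (S : List (ℕ × List Blk)) (hH : Fact x (H ++ lsc (-1) E)) (hS : Facts x S)
    (h : combOK c (G ++ lsc (-1) H) S = true) : Fact x (G ++ lsc (-1) E) := by
  have := comb_of hx c _ S hS h
  unfold Fact at *
  simp only [lval_append, lval_lsc] at *
  push_cast at *
  linarith

/-- a matrix from packed rows (length, digits in base `2 O` minus `O`) -/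
noncomputable def pkM (O : ℕ) (rows : List (ℕ × ℕ)) : List (List ℤ) :=
  List.rec [] (fun r _ ih => Prod.rec (fun n U => Chk.digs (Nat.add O O) O n U :: ih) r) rows

/-- a form on the listed variables from packed rows -/
noncomputable def pkB (vs : List ℕ) (O : ℕ) (rows : List (ℕ × ℕ)) : Blk :=
  (vs.map fun v => [(v, 1)], toTerms [1] (pkM O rows))

end Pool.Agent.Lib.MP_fb520c_co.Asm
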