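import Pool.Agent.Lib.MP_fb520c_co.Asm.GlowF

/-! More rules, and the hypotheses of a certificate. -/

set_option autoImplicit false

namespace Pool.Agent.Lib.MP_fb520c_co.Asm

open Dent

theorem Fact.congr {x : ℕ → ℝ} {L L' : List Blk} (h : Fact x L) (e : L = L') : Fact x L' := e ▸ h

theorem Fact.append {x : ℕ → ℝ} {L L' : List Blk} (h : Fact x L) (h' : Fact x L') :
    Fact x (L ++ L') := by
  unfold Fact at *; rw [lval_append]; linarith

theorem Fact.flatten {x : ℕ → ℝ} {S : List (List Blk)} (h : ∀ L ∈ S, Fact x L) :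
    Fact x S.flatten := by
  induction S with
  | nil => simp [Fact]
  | cons L S ih =>
    rw [List.flatten_cons]
    exact (h L List.mem_cons_self).append (ih fun M k => h M (List.mem_cons_of_mem _ k))

theorem fact_nil (x : ℕ → ℝ) : Fact x [] := le_rfl

theorem prod1 {x : ℕ → ℝ} (hx : Adm x) {l l' : Row} {R : List Blk} {U' : ℕ}
    (h : Fact x (linB l :: R)) (h' : Fact x [linB l']) (hR : Fact x R)
    (hU' : Fact x [linB ((0, (U' : ℤ)) :: rsc (-1) l')]) : Fact x (mulB l l' :: lsc U' R) := by
  unfold Fact at *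
  simp only [lval_cons, lval_nil, bval_linB hx, bval_mulB, lval_lsc, rev_cons, rev_rsc, hx.1] at *
  push_cast at *
  nlinarith [mul_nonneg h (show 0 ≤ rev x l' by linarith),
    mul_le_mul_of_nonneg_left (show rev x l' ≤ U' by linarith) hR]

/-- the facts of the segments, with a part `E` that is kept -/
def SegFacts3 (x : ℕ → ℝ) : List (List Blk × List Blk × List Blk) → Prop
  | [] => True
  | t :: S => Fact x (t.1 ++ lsc (-1) (t.2.1 ++ t.2.2)) ∧ SegFacts3 x S

theorem seg_sum3 {x : ℕ → ℝ} (B : Blk) (S : List (List Blk × List Blk × List Blk))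
    (hS : SegFacts3 x S) (h : Fact x (B :: lsc (-1) (S.map (·.1)).flatten)) :
    Fact x ((B :: lsc (-1) (S.map (·.2.1)).flatten) ++ lsc (-1) (S.map (·.2.2)).flatten) := by
  have : lval x (S.map (·.2.1)).flatten + lval x (S.map (·.2.2)).flatten ≤
      lval x (S.map (·.1)).flatten := by
    clear h
    induction S with
    | nil => simp
    | cons t S ih =>
      have h1 : 0 ≤ lval x (t.1 ++ lsc (-1) (t.2.1 ++ t.2.2)) := hS.1
      rw [lval_append, lval_lsc, lval_append] at h1
      simp only [List.map_cons, List.flatten_cons, lval_append]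
      push_cast at h1
      linarith [ih hS.2]
  unfold Fact at *
  simp only [lval_append, lval_cons, lval_lsc] at *
  push_cast at *
  linarith

/-- a combination step in which the part `E` is carried along -/
theorem keep {x : ℕ → ℝ} (hx : Adm x) (P : List ℕ) (τ : ℕ) (G H E : List Blk)
    (S : List (ℕ × List Blk)) (hH : Fact x (H ++ lsc (-1) E)) (hS : Facts x S)
    (h1 : allIn (0 :: P) (lsc (τ + 1) (G ++ lsc (-1) H) ++ negs S) = true)
    (h2 : ∀ y, Adm y → Fact y (combL P τ (G ++ lsc (-1) H) S)) : Fact x (G ++ lsc (-1) E) := by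
  have := comb hx P τ _ S hS h1 h2
  unfold Fact at *
  simp only [lval_append, lval_lsc] at *
  push_cast at *
  linarith

lemma lval_sqL_le (x : ℕ → ℝ) {A A' : List (ℕ × Row)} (h : A'.Sublist A) :
    lval x (sqL A') ≤ lval x (sqL A) := by
  induction h with
  | slnil => exact le_rfl
  | cons a _ ih =>
    have : 0 ≤ lval x (sqL [a]) := fact_sqL x [a]
    simp only [sqL, List.map_cons, lval_cons, List.map_nil, lval_nil] at *
    linarith
  | cons_cons a _ ih =>
    simp only [sqL, List.map_cons, lval_cons] at *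
    linarith

/-- only some of the squares are kept -/
theorem pick {x : ℕ → ℝ} {G : List Blk} {A : List (List (ℕ × Row))}
    (h : Fact x (G ++ lsc (-1) (A.map sqL).flatten)) (i j k : ℕ) :
    Fact x (G ++ lsc (-1) (sqL (((A.getD i []).drop j).take k))) := by
  have e : (A.map sqL).flatten = sqL A.flatten := by rw [sqL, List.map_flatten]; rfl
  have s : (A.getD i []).Sublist A.flatten := by
    rw [List.getD_eq_getElem?_getD]
    cases e : A[i]? with
    | none => simp
    | some a => exact List.sublist_flatten_of_mem (List.mem_of_getElem? e)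
  have := lval_sqL_le x (((List.take_sublist k _).trans (List.drop_sublist j _)).trans s)
  rw [e] at h
  unfold Fact at *
  simp only [lval_append, lval_lsc] at *
  push_cast at *
  linarith

/-- a new table of bounds: the listed entries of `be'` replace those of `be` -/
def upd (be : ℕ → ℕ) : List (ℕ × ℕ) → ℕ → ℕ
  | [], m => be m
  | a :: L, m => bif Nat.beq a.1 m then a.2 else upd be L m

/-- the ball facts of a list of entries -/
def BallFacts (x : ℕ → ℝ) : List (ℕ × ℕ) → Prop
  | [] => True
  | a :: L => Fact x [ballB (0, a.1) a.2] ∧ BallFacts x L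

theorem Ctx.bd_upd {t : Tab} {A η : ℝ} {b : ℂ → ℂ} (h : Ctx t A η b) {be : ℕ → ℕ} (hb : Bd t b be)
    {L : List (ℕ × ℕ)} (hL : BallFacts (xv t b) L) : Bd t b (upd be L) := by
  intro m
  induction L with
  | nil => exact hb m
  | cons a L ih =>
    unfold upd
    cases e : Nat.beq a.1 m with
    | true => rw [cond_true, ← Nat.eq_of_beq_eq_true e]; exact h.of_ball (s := (0, a.1)) hL.1
    | false => rw [cond_false]; exact ih hL.2

theorem Ctx.bd_zero {t : Tab} {A η : ℝ} {b : ℂ → ℂ} (h : Ctx t A η b) {be : ℕ → ℕ}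
    (hb : Bd t b be) : Bd t b (upd be [(0, 0)]) := by
  intro m
  unfold upd
  cases e : Nat.beq 0 m with
  | true => rw [cond_true, ← Nat.eq_of_beq_eq_true e, h.b0]; simp
  | false => rw [cond_false]; exact hb m

/-- a packed table of bounds for the first `n` entries -/
def pk (lit n m : ℕ) : ℕ :=
  bif Nat.ble n m then 751619277 else Nat.mod (Nat.shiftRight lit (Nat.mul 32 m)) (2 ^ 32)

theorem Ctx.bd_pk {t : Tab} {A η : ℝ} {b : ℂ → ℂ} (h : Ctx t A η b) {be : ℕ → ℕ} (hb : Bd t b be)
    (lit n : ℕ) (k : ((List.range n).all fun m => Nat.ble (be m) (pk lit n m)) = true) :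
    Bd t b (pk lit n) := by
  intro m
  by_cases hm : m < n
  · have := Nat.le_of_ble_eq_true (List.all_eq_true.1 k m (List.mem_range.2 hm))
    exact (hb m).trans (by gcongr)
  · rw [pk, Nat.ble_eq_true_of_le (not_lt.1 hm), cond_true]
    exact (h.geo.ap1_be (h.un m) h.eta).trans (by norm_num)

/-- the data that all steps of a certificate share -/
structure Setup where
  t : Tab
  An : ℕ
  Ad : ℕ
  en : ℕ
  ed : ℕ
  ph : List (Smp × ℤ × ℤ)

/-- the side conditions -/
def Setup.ok (s : Setup) : Bool :=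
  Nat.ble 1 s.t.S && Nat.beq (s.t.T 0) 0 && Nat.ble 1 s.An && Nat.ble 1 s.Ad && Nat.ble 1 s.en &&
    Nat.ble 1 s.ed && Nat.ble (17320509 * s.en) (26265200 * s.ed) && Nat.beq s.ph.length 7

/-- what a counterexample delivers -/
structure Hyp (s : Setup) (b : ℂ → ℂ) : Prop where
  ok : s.ok = true
  ctx : Ctx s.t (√3 * (s.An / s.Ad)) (√3 * (s.en / s.ed)) b
  ph : Phase (phU s.t s.ph) (phC s.ph) b

namespace Hyp

variable {s : Setup} {b : ℂ → ℂ} (h : Hyp s b)
include h

lemma adm : Adm (xv s.t b) := h.ctx.adm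

lemma bap : Bd s.t b (bap s.t) := h.ctx.bd_bap

theorem phase : rev (xv s.t b) (phY s.ph) = 0 ∧ Fact (xv s.t b) [linB (phX s.ph)] := by
  have := h.ok
  simp only [Setup.ok, Bool.and_eq_true, Nat.beq_eq] at this
  exact h.ctx.phase this.2 h.ph

theorem area {be : ℕ → ℕ} (hb : Bd s.t b be) {c : ℕ} (S : List (List Pair))
    (k : (chainOK s.t be (0, 0) S.flatten && Nat.ble (2 ^ 83 * s.An) (3 * c * s.Ad)) = true) :
    Fact (xv s.t b) (cstB c :: lsc (-1) (S.map (areaL s.t)).flatten) := by
  have := h.ok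
  simp only [Setup.ok, Bool.and_eq_true] at this k
  exact h.ctx.area hb rfl S k.1 this.1.1.1.1.2 k.2

theorem glow {be : ℕ → ℕ} (hb : Bd s.t b be) (d : GD) (T : Terms)
    (k : (glowOK s.t be d && decide (glowS s.t s.en s.ed d = T)) = true) :
    Fact (xv s.t b) [(atoms [d.v0.s, d.v1.s, d.v2.s], T)] := by
  have := h.ok
  simp only [Setup.ok, Bool.and_eq_true, decide_eq_true_eq] at this k
  have e0 : (0 : ℝ) < s.ed := by exact_mod_cast Nat.le_of_ble_eq_true this.1.1.2
  rw [← k.2]
  exact h.ctx.glow hb (by field_simp; exact le_rfl) this.1.1.2 d k.1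

end Hyp

end Pool.Agent.Lib.MP_fb520c_co.Asm
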