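import Pool.Agent.Lib.MP_fb520c_co.Asm.Dense
import Pool.Agent.Lib.MP_fb520c_co.Dent.Ap

/-! The table of directions, the samples and the variables. -/

set_option autoImplicit false

open Complex ComplexConjugate

namespace Pool.Agent.Lib.MP_fb520c_co.Asm

open Dent

/-- the parameters `T m / S` of the directions, packed into one number -/
structure Tab where
  tb : ℕ
  S : ℕ

namespace Tab

variable (t : Tab)

/-- the numerator of the parameter -/
def T (m : ℕ) : ℕ := Nat.mod (Nat.shiftRight t.tb (Nat.mul 64 m)) (2 ^ 64)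
/-- first coordinate of the direction times `d` -/
def p (m : ℕ) : ℤ := (t.S : ℤ) * t.S - 3 * ((t.T m : ℤ) * t.T m)
/-- second coordinate of the direction times `d` -/
def q (m : ℕ) : ℤ := 2 * ((t.T m : ℤ) * t.S)
/-- the denominator of the direction -/
def d (m : ℕ) : ℤ := (t.S : ℤ) * t.S + 3 * ((t.T m : ℤ) * t.T m)
/-- the direction -/
noncomputable def u (m : ℕ) : ℂ := ⟨t.p m / t.d m, t.q m / t.d m * √3⟩

lemma d_pos (h : 0 < t.S) (m : ℕ) : 0 < t.d m := by unfold d; positivity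

lemma u_norm (h : 0 < t.S) (m : ℕ) : ‖t.u m‖ = 1 := by
  have d0 : (0 : ℝ) < t.d m := by exact_mod_cast t.d_pos h m
  have e : (t.p m : ℝ) ^ 2 + 3 * (t.q m) ^ 2 = (t.d m) ^ 2 := by
    simp only [p, q, d]; push_cast; ring
  have k := nsq (t.u m)
  have : ‖t.u m‖ ^ 2 = 1 := by
    rw [k, u]
    field_simp
    linear_combination e + (t.q m : ℝ) ^ 2 * s3
  nlinarith [norm_nonneg (t.u m)]

lemma u_zero (h : 0 < t.S) (h0 : t.T 0 = 0) : t.u 0 = 1 := by
  have : (t.S : ℝ) ≠ 0 := by exact_mod_cast h.ne'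
  apply Complex.ext <;> simp [u, p, q, d, h0, this]

end Tab

/-- twice the first coordinate of a sixth root of unity -/
def al : ℕ → ℤ
  | 1 => 1 | 2 => -1 | 3 => -2 | 4 => -1 | 5 => 1 | _ => 2

/-- twice the second coordinate of a sixth root of unity -/
def bt : ℕ → ℤ
  | 1 => 1 | 2 => 1 | 3 => 0 | 4 => -1 | 5 => -1 | _ => 0

/-- a sixth root of unity -/
noncomputable def ej (j : ℕ) : ℂ := ⟨al j / 2, bt j / 2 * √3⟩

lemma ej_cases (j : ℕ) : ∃ k : ℕ, ej j = om ^ k := by
  have h0 : ∀ j, al j = 2 → bt j = 0 → ej j = om ^ 0 := fun j a b => by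
    apply Complex.ext <;> simp [ej, a, b]
  have s : ∀ j j' k : ℕ, ej j = om ^ k → 2 * al j' = al j - 3 * bt j → 2 * bt j' = al j + bt j →
      ej j' = om ^ (k + 1) := fun j j' k h a b => by
    have a' : 2 * (al j' : ℝ) = al j - 3 * bt j := by exact_mod_cast a
    have b' : 2 * (bt j' : ℝ) = al j + bt j := by exact_mod_cast b
    rw [pow_succ, ← h]
    apply Complex.ext <;> simp only [ej, om, mul_re, mul_im]
    · linear_combination a' / 4 + (bt j : ℝ) / 4 * s3
    · linear_combination √3 / 4 * b'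
  have h1 := s 0 1 0 (h0 0 rfl rfl) rfl rfl
  have h2 := s 1 2 1 h1 rfl rfl
  have h3 := s 2 3 2 h2 rfl rfl
  have h4 := s 3 4 3 h3 rfl rfl
  have h5 := s 4 5 4 h4 rfl rfl
  match j with
  | 0 => exact ⟨_, h0 0 rfl rfl⟩
  | 1 => exact ⟨_, h1⟩
  | 2 => exact ⟨_, h2⟩
  | 3 => exact ⟨_, h3⟩
  | 4 => exact ⟨_, h4⟩
  | 5 => exact ⟨_, h5⟩
  | j + 6 => exact ⟨_, h0 _ rfl rfl⟩

lemma rot_pow {A η : ℝ} {b : ℂ → ℂ} (hG : Geo A η b) {u : ℂ} (hu : ‖u‖ = 1) (k : ℕ) :
    ‖om ^ k * u‖ = 1 ∧ b (om ^ k * u) = conj (om ^ k) * b u := by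
  induction k with
  | zero => simp [hu]
  | succ k ih =>
    rw [pow_succ', mul_assoc, hG.rot _ ih.1, ih.2, map_mul, mul_assoc]
    exact ⟨norm_om_mul ih.1, rfl⟩

/-- a sample: a rotation and an entry of the table -/
abbrev Smp := ℕ × ℕ

namespace Tab

variable (t : Tab)

/-- first coordinate of the direction of a sample times `sd` -/
def sp (s : Smp) : ℤ := al s.1 * t.p s.2 - 3 * (bt s.1 * t.q s.2)
/-- second coordinate of the direction of a sample times `sd` -/
def sq (s : Smp) : ℤ := bt s.1 * t.p s.2 + al s.1 * t.q s.2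
/-- the denominator of the direction of a sample -/
def sd (s : Smp) : ℤ := 2 * t.d s.2
/-- the direction of a sample -/
noncomputable def su (s : Smp) : ℂ := ej s.1 * t.u s.2

lemma sd_pos (h : 0 < t.S) (s : Smp) : 0 < t.sd s := by
  unfold sd; linarith [t.d_pos h s.2]

lemma su_eq (h : 0 < t.S) (s : Smp) :
    t.su s = ⟨t.sp s / t.sd s, t.sq s / t.sd s * √3⟩ := by
  have d0 : (t.d s.2 : ℝ) ≠ 0 := by exact_mod_cast (t.d_pos h s.2).ne'
  apply Complex.ext <;> simp only [su, ej, u, sp, sq, sd, mul_re, mul_im] <;> push_cast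
  · field_simp
    linear_combination (-(bt s.1 : ℝ) * t.q s.2) * s3
  · field_simp
    ring

end Tab

/-- the variables: `1` and the two coordinates of `b` at the entries of the table -/
noncomputable def xv (t : Tab) (b : ℂ → ℂ) (i : ℕ) : ℝ :=
  if i = 0 then 1 else if i % 2 = 1 then (b (t.u (i / 2))).re else (b (t.u (i / 2 - 1))).im / √3

lemma xv_odd (t : Tab) (b : ℂ → ℂ) (m : ℕ) : xv t b (2 * m + 1) = (b (t.u m)).re := by
  rw [xv, if_neg (by omega), if_pos (by omega), show (2 * m + 1) / 2 = m by omega]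

lemma xv_even (t : Tab) (b : ℂ → ℂ) (m : ℕ) : xv t b (2 * m + 2) = (b (t.u m)).im / √3 := by
  rw [xv, if_neg (by omega), if_neg (by omega), show (2 * m + 2) / 2 - 1 = m by omega]

/-- twice the first coordinate of `b` at a sample -/
def rX (s : Smp) : Row :=
  bif Nat.beq s.2 0 then [] else [(2 * s.2 + 1, al s.1), (2 * s.2 + 2, 3 * bt s.1)]

/-- twice the second coordinate of `b` at a sample -/
def rY (s : Smp) : Row :=
  bif Nat.beq s.2 0 then [] else [(2 * s.2 + 1, -bt s.1), (2 * s.2 + 2, al s.1)]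

/-- the standing hypotheses -/
structure Ctx (t : Tab) (A η : ℝ) (b : ℂ → ℂ) : Prop where
  geo : Geo A η b
  eta : η ≤ 2.62652
  S0 : 0 < t.S
  T0 : t.T 0 = 0

namespace Ctx

variable {t : Tab} {A η : ℝ} {b : ℂ → ℂ} (h : Ctx t A η b)
include h

lemma un (m : ℕ) : ‖t.u m‖ = 1 := t.u_norm h.S0 m

lemma sun (s : Smp) : ‖t.su s‖ = 1 := by
  obtain ⟨k, e⟩ := ej_cases s.1
  rw [Tab.su, e]; exact (rot_pow h.geo (h.un _) k).1

lemma bsu (s : Smp) : b (t.su s) = conj (ej s.1) * b (t.u s.2) := by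
  obtain ⟨k, e⟩ := ej_cases s.1
  rw [Tab.su, e]; exact (rot_pow h.geo (h.un _) k).2

lemma nsu (s : Smp) : ‖b (t.su s)‖ = ‖b (t.u s.2)‖ := by
  obtain ⟨k, e⟩ := ej_cases s.1
  rw [h.bsu, norm_mul, Complex.norm_conj, e, norm_pow, norm_om, one_pow, one_mul]

lemma co (s : Smp) : |(b (t.su s)).re| ≤ 1 ∧ |(b (t.su s)).im / √3| ≤ 1 := by
  have k := h.geo.ap1_be (h.sun s) h.eta
  refine ⟨(abs_re_le_norm _).trans (by linarith), ?_⟩
  rw [abs_div, abs_of_pos s3_pos, div_le_one s3_pos]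
  linarith [abs_im_le_norm (b (t.su s)), s3_lo']

lemma adm : Adm (xv t b) := by
  refine ⟨rfl, fun i => ?_⟩
  have k := fun m => h.geo.ap1_be (h.un m) h.eta
  unfold xv
  split_ifs
  · simp
  · exact (abs_re_le_norm _).trans (by linarith [k (i / 2)])
  · rw [abs_div, abs_of_pos s3_pos, div_le_one s3_pos]
    linarith [abs_im_le_norm (b (t.u (i / 2 - 1))), s3_lo', k (i / 2 - 1)]

lemma b0 : b (t.u 0) = 0 := by rw [t.u_zero h.S0 h.T0, h.geo.base]

lemma rev_rX (s : Smp) : rev (xv t b) (rX s) = 2 * (b (t.su s)).re := by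
  rw [h.bsu, rX]
  cases e : Nat.beq s.2 0 with
  | true => simp [Nat.eq_of_beq_eq_true e, h.b0]
  | false =>
    simp only [cond_false, rev_cons, rev_nil, xv_odd, xv_even, ej, mul_re, conj_re, conj_im]
    push_cast
    field_simp
    linear_combination (-(bt s.1 : ℝ) * (b (t.u s.2)).im) * s3

lemma rev_rY (s : Smp) : rev (xv t b) (rY s) = 2 * ((b (t.su s)).im / √3) := by
  rw [h.bsu, rY]
  cases e : Nat.beq s.2 0 with
  | true => simp [Nat.eq_of_beq_eq_true e, h.b0]
  | false =>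
    simp only [cond_false, rev_cons, rev_nil, xv_odd, xv_even, ej, mul_im, conj_re, conj_im]
    push_cast
    field_simp
    ring

end Ctx

/-- the atoms of a local form: twice `1` and twice the coordinates of `b` at the samples -/
def atoms (ss : List Smp) : List Row := [(0, 2)] :: ss.flatMap fun s => [rX s, rY s]

/-- the coordinates of `b` at the samples -/
noncomputable def vals (t : Tab) (b : ℂ → ℂ) (ss : List Smp) : List ℝ :=
  ss.flatMap fun s => [(b (t.su s)).re, (b (t.su s)).im / √3]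

namespace Ctx

variable {t : Tab} {A η : ℝ} {b : ℂ → ℂ} (h : Ctx t A η b)
include h

lemma bval_atoms (ss : List Smp) (T : Terms) :
    bval (xv t b) (atoms ss, T) = 4 * tval (1 :: vals t b ss) T := by
  have : (atoms ss).map (rev (xv t b)) = (1 :: vals t b ss).map (2 * ·) := by
    simp only [atoms, vals, List.map_cons, rev_cons, rev_nil, h.adm.1, List.map_flatMap,
      List.map_nil, h.rev_rX, h.rev_rY]
    norm_num
  rw [bval, this, tval_map_smul]; norm_num

lemma vals_le (ss : List Smp) : ∀ a ∈ vals t b ss, |a| ≤ 1 := by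
  intro a ha
  obtain ⟨s, -, hs⟩ := List.mem_flatMap.1 ha
  simp only [List.mem_cons, List.not_mem_nil, or_false] at hs
  rcases hs with rfl | rfl
  · exact (h.co s).1
  · exact (h.co s).2

theorem fact_loc {ss : List Smp} {T : Terms} (k : 0 ≤ tval (1 :: vals t b ss) T) :
    Fact (xv t b) [(atoms ss, T)] := by
  simp only [Fact, lval_cons, lval_nil, h.bval_atoms]; linarith

theorem loc_of_fact {ss : List Smp} {T : Terms} (k : Fact (xv t b) [(atoms ss, T)]) :
    0 ≤ tval (1 :: vals t b ss) T := by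
  simp only [Fact, lval_cons, lval_nil, h.bval_atoms] at k; linarith

end Ctx

end Pool.Agent.Lib.MP_fb520c_co.Asm
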